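import Pool.Agent.Lib.MP_9dcf40_lc.DV.Spec

/-!
# Circuits of NAND gates for the functions `fam ω` (MP_9dcf40_lc, module T6)
-/

set_option autoImplicit false

namespace SRBP

open Finset

namespace CktA

/-- Boolean functions of the input. -/
abbrev Fn (n : ℕ) : Type := (Fin n → Bool) → Bool

/-- `F` is the table of the wires of a circuit with `K` gates; the wires with the numbers `≥ n + K` have the
value `1`. -/
structure Bld (n K : ℕ) (F : ℕ → Fn n) : Prop where
  inp : ∀ (i : Fin n) (y : Fin n → Bool), F i y = y i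
  out : ∀ i, n + K ≤ i → ∀ y, F i y = true
  gat : ∃ a b : ℕ → ℕ, ∀ g < K, a g ≤ n + g ∧ b g ≤ n + g ∧
    ∀ y, F (n + g) y = !((if a g < n + g then F (a g) y else true) &&
      (if b g < n + g then F (b g) y else true))

theorem Bld.zero (n : ℕ) : Bld n 0 (fun i y => if h : i < n then y ⟨i, h⟩ else true) where
  inp := fun i y => dif_pos i.2
  out := fun i hi y => dif_neg (by omega)
  gat := ⟨fun _ => 0, fun _ => 0, fun g hg => absurd hg (Nat.not_lt_zero g)⟩

/-- The table with one more gate. -/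
def upd (n : ℕ) (F : ℕ → Fn n) (K a b : ℕ) : ℕ → Fn n :=
  fun i y => if i = n + K then !(F a y && F b y) else F i y

theorem upd_ne {n : ℕ} {F : ℕ → Fn n} {K a b i : ℕ} (h : i ≠ n + K) : upd n F K a b i = F i := by
  funext y
  exact if_neg h

theorem upd_eq {n : ℕ} {F : ℕ → Fn n} {K a b : ℕ} :
    upd n F K a b (n + K) = fun y => !(F a y && F b y) := by
  funext y
  exact if_pos rfl

theorem Bld.step {n K : ℕ} {F : ℕ → Fn n} (h : Bld n K F) {a b : ℕ} (ha : a ≤ n + K)
    (hb : b ≤ n + K) : Bld n (K + 1) (upd n F K a b) where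
  inp := fun i y => by
    rw [upd_ne (by have := i.2; omega)]
    exact h.inp i y
  out := fun i hi y => by
    rw [upd_ne (by omega)]
    exact h.out i (by omega) y
  gat := by
    obtain ⟨p, q, hpq⟩ := h.gat
    refine ⟨fun g => if g = K then a else p g, fun g => if g = K then b else q g, fun g hg => ?_⟩
    beta_reduce
    by_cases hK : g = K
    · subst hK
      rw [if_pos rfl, if_pos rfl, upd_eq]
      refine ⟨ha, hb, fun y => ?_⟩
      have e : ∀ x, x ≤ n + g → (if x < n + g then upd n F g a b x y else true) = F x y := by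
        intro x hx
        by_cases h1 : x < n + g
        · rw [if_pos h1, upd_ne h1.ne]
        · rw [if_neg h1]
          exact (h.out x (not_lt.1 h1) y).symm
      rw [e a ha, e b hb]
    · rw [if_neg hK, if_neg hK, upd_ne (by omega)]
      obtain ⟨h1, h2, h3⟩ := hpq g (by omega)
      refine ⟨h1, h2, fun y => ?_⟩
      rw [h3 y]
      have e : ∀ x, (if x < n + g then upd n F K a b x y else true) =
          if x < n + g then F x y else true := by
        intro x
        by_cases h4 : x < n + g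
        · rw [if_pos h4, if_pos h4, upd_ne (by omega)]
        · rw [if_neg h4, if_neg h4]
      rw [e, e]

/-- The functions in `S` are computed by a circuit with `K` gates. -/
def R (n K : ℕ) (S : Set (Fn n)) : Prop :=
  ∃ F, Bld n K F ∧ ∀ φ ∈ S, ∃ i < n + K, F i = φ

/-- The inputs. -/
def Inp (n : ℕ) : Set (Fn n) := {φ | ∃ i : Fin n, φ = fun y => y i}

theorem R.zero (n : ℕ) : R n 0 (Inp n) := by
  refine ⟨_, Bld.zero n, ?_⟩
  rintro φ ⟨i, rfl⟩
  refine ⟨i, by have := i.2; omega, ?_⟩
  funext y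
  exact (Bld.zero n).inp i y

theorem R.mono {n K : ℕ} {S S' : Set (Fn n)} (h : R n K S) (hS : S' ⊆ S) : R n K S' := by
  obtain ⟨F, hF, hS'⟩ := h
  exact ⟨F, hF, fun φ hφ => hS' φ (hS hφ)⟩

theorem R.gate {n K : ℕ} {S : Set (Fn n)} {F : ℕ → Fn n} (hF : Bld n K F)
    (hS : ∀ φ ∈ S, ∃ i < n + K, F i = φ) {a b : ℕ} (ha : a ≤ n + K) (hb : b ≤ n + K) :
    R n (K + 1) (insert (fun y => !(F a y && F b y)) S) := by
  refine ⟨_, hF.step ha hb, ?_⟩
  rintro φ (rfl | hφ)
  · exact ⟨n + K, by omega, upd_eq⟩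
  · obtain ⟨i, hi, hi2⟩ := hS φ hφ
    refine ⟨i, by omega, ?_⟩
    rw [upd_ne hi.ne, hi2]

theorem R.gnand {n K : ℕ} {S : Set (Fn n)} (h : R n K S) {φ ψ : Fn n} (h1 : φ ∈ S) (h2 : ψ ∈ S) :
    R n (K + 1) (insert (fun y => !(φ y && ψ y)) S) := by
  obtain ⟨F, hF, hS⟩ := h
  obtain ⟨a, ha, rfl⟩ := hS φ h1
  obtain ⟨b, hb, rfl⟩ := hS ψ h2
  exact R.gate hF hS ha.le hb.le

theorem R.gnot {n K : ℕ} {S : Set (Fn n)} (h : R n K S) {φ : Fn n} (h1 : φ ∈ S) :
    R n (K + 1) (insert (fun y => !(φ y)) S) := by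
  obtain ⟨F, hF, hS⟩ := h
  obtain ⟨a, ha, rfl⟩ := hS φ h1
  have h2 := R.gate hF hS ha.le (le_refl (n + K))
  have e : (fun y => !(F a y && F (n + K) y)) = fun y => !(F a y) := by
    funext y
    rw [hF.out (n + K) le_rfl y, Bool.and_true]
  rw [e] at h2
  exact h2

theorem R.gff {n K : ℕ} {S : Set (Fn n)} (h : R n K S) :
    R n (K + 1) (insert (fun _ => false) S) := by
  obtain ⟨F, hF, hS⟩ := h
  have h2 := R.gate hF hS (le_refl (n + K)) (le_refl (n + K))
  have e : (fun y => !(F (n + K) y && F (n + K) y)) = fun _ => false := by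
    funext y
    rw [hF.out (n + K) le_rfl y]
    rfl
  rw [e] at h2
  exact h2

theorem R.add {n K : ℕ} {S : Set (Fn n)} (h : R n K S) (c : ℕ) : R n (K + c) S := by
  induction c with
  | zero => exact h
  | succ c ih => exact (ih.gff).mono (Set.subset_insert _ _)

theorem R.le {n K K' : ℕ} {S : Set (Fn n)} (h : R n K S) (hK : K ≤ K') : R n K' S := by
  obtain ⟨c, rfl⟩ := Nat.exists_eq_add_of_le hK
  exact h.add c

theorem R.gtt {n K : ℕ} {S : Set (Fn n)} (h : R n K S) :
    R n (K + 2) (insert (fun _ => true) S) := by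
  have h1 := (h.gff).gnot (Set.mem_insert _ _)
  refine h1.mono ?_
  intro φ hφ
  rcases hφ with rfl | hφ
  · exact Or.inl rfl
  · exact Or.inr (Or.inr hφ)

theorem R.gand {n K : ℕ} {S : Set (Fn n)} (h : R n K S) {φ ψ : Fn n} (h1 : φ ∈ S) (h2 : ψ ∈ S) :
    R n (K + 2) (insert (fun y => φ y && ψ y) S) := by
  have h3 := (h.gnand h1 h2).gnot (Set.mem_insert _ _)
  refine h3.mono ?_
  intro χ hχ
  rcases hχ with rfl | hχ
  · refine Or.inl ?_
    funext y
    rw [Bool.not_not]
  · exact Or.inr (Or.inr hχ)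

theorem R.gxor {n K : ℕ} {S : Set (Fn n)} (h : R n K S) {φ ψ : Fn n} (h1 : φ ∈ S) (h2 : ψ ∈ S) :
    R n (K + 4) (insert (fun y => Bool.xor (φ y) (ψ y)) S) := by
  have g1 := h.gnand h1 h2
  have m1 : (fun y => !(φ y && ψ y)) ∈ insert (fun y => !(φ y && ψ y)) S := Set.mem_insert _ _
  have g2 := g1.gnand (Or.inr h1 : φ ∈ insert (fun y => !(φ y && ψ y)) S) m1
  have g3 := g2.gnand (Or.inr (Or.inr h2) : ψ ∈ insert (fun y => !(φ y && !(φ y && ψ y)))
    (insert (fun y => !(φ y && ψ y)) S)) (Or.inr m1)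
  have g4 := g3.gnand (Or.inr (Or.inl rfl) : (fun y => !(φ y && !(φ y && ψ y))) ∈ _)
    (Or.inl rfl : (fun y => !(ψ y && !(φ y && ψ y))) ∈ _)
  refine g4.mono ?_
  intro χ hχ
  rcases hχ with rfl | hχ
  · refine Or.inl ?_
    funext y
    cases φ y <;> cases ψ y <;> rfl
  · exact Or.inr (Or.inr (Or.inr (Or.inr hχ)))

/-! ### Sums and conjunctions -/

/-- The Boolean function of a predicate. -/
noncomputable def bc {n : ℕ} (p : (Fin n → Bool) → Prop) : Fn n :=
  fun y => @decide (p y) (Classical.propDecidable _)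

theorem bc_iff {n : ℕ} {p : (Fin n → Bool) → Prop} {y : Fin n → Bool} : bc p y = true ↔ p y := by
  exact @decide_eq_true_iff (p y) (Classical.propDecidable _)

theorem bc_eq {n : ℕ} {p : (Fin n → Bool) → Prop} {φ : Fn n} (h : ∀ y, φ y = true ↔ p y) :
    φ = bc p := by
  funext y
  exact Bool.eq_iff_iff.2 ((h y).trans bc_iff.symm)

theorem z2 (x : ZMod 2) : x = 0 ∨ x = 1 := by
  revert x
  decide

theorem add_eq_one (x y : ZMod 2) : x + y = 1 ↔ (x = 1 ∧ ¬ y = 1) ∨ (¬ x = 1 ∧ y = 1) := by
  revert x y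
  decide

theorem R.gsum {n : ℕ} (B : Set (Fn n)) {ι : Type} (s : ι → (Fin n → Bool) → ZMod 2)
    (c : ℕ) (h : ∀ u K S, B ⊆ S → R n K S → R n (K + c) (insert (bc (fun y => s u y = 1)) S))
    (T : Finset ι) : ∀ K S, B ⊆ S → R n K S →
      R n (K + (T.card * (c + 4) + 1)) (insert (bc (fun y => ∑ u ∈ T, s u y = 1)) S) := by
  classical
  induction T using Finset.induction_on with
  | empty =>
    intro K S _ hR
    have e : (fun _ : Fin n → Bool => false) = bc (fun y => ∑ u ∈ (∅ : Finset ι), s u y = 1) := by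
      refine bc_eq fun y => ?_
      rw [Finset.sum_empty]
      constructor
      · intro h1
        exact absurd h1 Bool.false_ne_true
      · intro h1
        exact absurd h1 (by decide)
    rw [← e]
    exact (hR.gff).le (by omega)
  | insert a T ha ih =>
    intro K S hB hR
    have h1 := ih K S hB hR
    have h2 := h a _ _ (hB.trans (Set.subset_insert _ _)) h1
    have h3 := h2.gxor (Or.inl rfl : bc (fun y => s a y = 1) ∈ _) (Or.inr (Or.inl rfl) :
      bc (fun y => ∑ u ∈ T, s u y = 1) ∈ _)
    have e : (fun y => Bool.xor (bc (fun y => s a y = 1) y) (bc (fun y => ∑ u ∈ T, s u y = 1) y)) =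
        bc (fun y => ∑ u ∈ insert a T, s u y = 1) := by
      refine bc_eq fun y => ?_
      rw [Finset.sum_insert ha, add_eq_one, ← bc_iff (p := fun y => s a y = 1),
        ← bc_iff (p := fun y => ∑ u ∈ T, s u y = 1)]
      cases bc (fun y => s a y = 1) y <;> cases bc (fun y => ∑ u ∈ T, s u y = 1) y <;> simp
    rw [e] at h3
    refine (h3.le ?_).mono ?_
    · rw [Finset.card_insert_of_notMem ha]
      linarith
    · intro φ hφ
      rcases hφ with rfl | hφ
      · exact Or.inl rfl
      · exact Or.inr (Or.inr (Or.inr hφ))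

theorem R.gall {n : ℕ} (B : Set (Fn n)) {ι : Type} (p : ι → (Fin n → Bool) → Prop)
    (c : ℕ) (h : ∀ u K S, B ⊆ S → R n K S → R n (K + c) (insert (bc (p u)) S))
    (T : Finset ι) : ∀ K S, B ⊆ S → R n K S →
      R n (K + (T.card * (c + 2) + 2)) (insert (bc (fun y => ∀ u ∈ T, p u y)) S) := by
  classical
  induction T using Finset.induction_on with
  | empty =>
    intro K S _ hR
    have e : (fun _ : Fin n → Bool => true) = bc (fun y => ∀ u ∈ (∅ : Finset ι), p u y) :=
      bc_eq fun y => ⟨fun _ u hu => absurd hu (Finset.notMem_empty u), fun _ => rfl⟩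
    rw [← e]
    exact (hR.gtt).le (by omega)
  | insert a T ha ih =>
    intro K S hB hR
    have h1 := ih K S hB hR
    have h2 := h a _ _ (hB.trans (Set.subset_insert _ _)) h1
    have h3 := h2.gand (Or.inl rfl : bc (p a) ∈ _) (Or.inr (Or.inl rfl) :
      bc (fun y => ∀ u ∈ T, p u y) ∈ _)
    have e : (fun y => bc (p a) y && bc (fun y => ∀ u ∈ T, p u y) y) =
        bc (fun y => ∀ u ∈ insert a T, p u y) := by
      refine bc_eq fun y => ?_
      rw [Bool.and_eq_true, bc_iff, bc_iff]
      exact (Finset.forall_mem_insert a T (fun u => p u y)).symm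
    rw [e] at h3
    refine (h3.le ?_).mono ?_
    · rw [Finset.card_insert_of_notMem ha]
      linarith
    · intro φ hφ
      rcases hφ with rfl | hφ
      · exact Or.inl rfl
      · exact Or.inr (Or.inr (Or.inr hφ))

/-! ### The functions `fam ω` -/

theorem R.ginp {n K : ℕ} {S : Set (Fn n)} (hS : Inp n ⊆ S) (h : R n K S) (v : Fin n) (e : Bool) :
    R n (K + 1) (insert (bc (fun y =>
      (if e = true ∧ y v = true then (1 : ZMod 2) else 0) = 1)) S) := by
  cases e with
  | false =>
    have e1 : (fun _ : Fin n → Bool => false) =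
        bc (fun y => (if false = true ∧ y v = true then (1 : ZMod 2) else 0) = 1) := by
      refine bc_eq fun y => ?_
      rw [if_neg (fun h => Bool.false_ne_true h.1)]
      constructor
      · intro h1
        exact absurd h1 Bool.false_ne_true
      · intro h1
        exact absurd h1 (by decide)
    rw [← e1]
    exact h.gff
  | true =>
    have e1 : (fun y : Fin n → Bool => y v) =
        bc (fun y => (if true = true ∧ y v = true then (1 : ZMod 2) else 0) = 1) := by
      refine bc_eq fun y => ?_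
      constructor
      · intro h1
        rw [if_pos ⟨rfl, h1⟩]
      · intro h1
        by_contra h2
        rw [if_neg (fun h => h2 h.2)] at h1
        exact absurd h1 (by decide)
    rw [← e1]
    refine (h.add 1).mono ?_
    rintro φ (rfl | hφ)
    · exact hS ⟨v, rfl⟩
    · exact hφ

theorem R.grow {n W K : ℕ} {S : Set (Fn n)} (hS : Inp n ⊆ S) (h : R n K S)
    (r : Fin W → Fin n × Bool) :
    R n (K + (5 * W + 1)) (insert (bc (fun y => rowv r y = 1)) S) := by
  have h1 := R.gsum (Inp n) (fun (u : Fin W) y => if (r u).2 = true ∧ y (r u).1 = true then 1 else 0)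
    1 (fun u K S hB hR => hR.ginp hB (r u).1 (r u).2) Finset.univ K S hS h
  rw [Finset.card_univ, Fintype.card_fin] at h1
  refine (h1.le (by omega)).mono ?_
  intro φ hφ
  exact hφ

theorem R.ghit {n l W K : ℕ} {S : Set (Fn n)} (hS : Inp n ⊆ S) (h : R n K S)
    (q : Fin l → (Fin W → Fin n × Bool) × Bool) :
    R n (K + (l * (5 * W + 4) + 2)) (insert (bc (fun y => SRBP.hit q y)) S) := by
  have h1 := R.gall (Inp n) (fun (j : Fin l) y => rowv (q j).1 y = if (q j).2 = true then 1 else 0)
    (5 * W + 2) (fun j K S hB hR => ?_) Finset.univ K S hS h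
  · rw [Finset.card_univ, Fintype.card_fin] at h1
    refine (h1.le (by linarith)).mono ?_
    rintro φ (rfl | hφ)
    · refine Or.inl (bc_eq fun y => ?_)
      rw [bc_iff]
      unfold SRBP.hit
      exact ⟨fun h _ _ => h _, fun h j => h j (Finset.mem_univ j)⟩
    · exact Or.inr hφ
  · have h2 := hR.grow hB (q j).1
    cases h3 : (q j).2 with
    | true =>
      have e : bc (fun y => rowv (q j).1 y = 1) =
          bc (fun y => rowv (q j).1 y = if (true : Bool) = true then 1 else 0) :=
        bc_eq fun y => by rw [bc_iff, if_pos rfl]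
      rw [← e]
      exact h2.le (by omega)
    | false =>
      have e : (fun y => !(bc (fun y => rowv (q j).1 y = 1) y)) =
          bc (fun y => rowv (q j).1 y = if (false : Bool) = true then 1 else 0) := by
        refine bc_eq fun y => ?_
        rw [if_neg Bool.false_ne_true, Bool.not_eq_true', ← Bool.not_eq_true, bc_iff]
        rcases z2 (rowv (q j).1 y) with h | h <;> rw [h] <;> decide
      rw [← e]
      refine ((h2.gnot (Or.inl rfl)).le (by omega)).mono ?_
      rintro φ (rfl | hφ)
      · exact Or.inl rfl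
      · exact Or.inr (Or.inr hφ)

theorem R.gfam {n N l W K : ℕ} {S : Set (Fn n)} (hS : Inp n ⊆ S) (h : R n K S) (ω : Fam n N l W) :
    R n (K + (N * (l * (5 * W + 4) + 6) + 1)) (insert (bc (fun y => SRBP.fam ω y = 1)) S) := by
  classical
  have h1 := R.gsum (Inp n) (fun (i : Fin N) y => if SRBP.hit (ω i) y then 1 else 0)
    (l * (5 * W + 4) + 2) (fun i K S hB hR => ?_) Finset.univ K S hS h
  · rw [Finset.card_univ, Fintype.card_fin] at h1
    refine (h1.le (by linarith)).mono ?_
    rintro φ (rfl | hφ)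
    · refine Or.inl (bc_eq fun y => ?_)
      rw [bc_iff]
      have e : SRBP.fam ω y = ∑ i : Fin N, if SRBP.hit (ω i) y then 1 else 0 := by
        unfold SRBP.fam
        refine Finset.sum_congr rfl fun i _ => ?_
        by_cases h2 : SRBP.hit (ω i) y
        · rw [if_pos h2]
        · rw [if_neg h2]
      rw [e]
    · exact Or.inr hφ
  · have h2 := hR.ghit hB (ω i)
    have e : bc (fun y => SRBP.hit (ω i) y) =
        bc (fun y => (if SRBP.hit (ω i) y then (1 : ZMod 2) else 0) = 1) := by
      refine bc_eq fun y => ?_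
      rw [bc_iff]
      constructor
      · intro h3
        rw [if_pos h3]
      · intro h3
        by_contra h4
        rw [if_neg h4] at h3
        exact absurd h3 (by decide)
    rw [← e]
    exact h2

/-! ### From tables to circuits -/

theorem bits_sum : ∀ (s x : ℕ), x < 2 ^ s →
    (∑ i : Fin s, if x.testBit i then 2 ^ (i : ℕ) else 0) = x := by
  intro s
  induction s with
  | zero =>
    intro x hx
    rw [pow_zero] at hx
    have : x = 0 := by omega
    rw [this]
    rfl
  | succ s ih =>
    intro x hx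
    rw [Fin.sum_univ_succ]
    have h1 : x / 2 < 2 ^ s := by
      rw [pow_succ] at hx
      omega
    have h2 := ih (x / 2) h1
    have e : ∀ i : Fin s, (if x.testBit ((i.succ : Fin (s + 1)) : ℕ) then 2 ^ ((i.succ : Fin (s + 1)) : ℕ) else 0) =
        2 * (if (x / 2).testBit i then 2 ^ (i : ℕ) else 0) := by
      intro i
      rw [Fin.val_succ, Nat.testBit_succ]
      by_cases h : (x / 2).testBit i
      · rw [if_pos h, if_pos h, pow_succ]
        ring
      · rw [if_neg h, if_neg h]
    rw [Finset.sum_congr rfl (fun i _ => e i), ← Finset.mul_sum, h2]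
    rw [Fin.val_zero, pow_zero, Nat.testBit_zero]
    rcases Nat.mod_two_eq_zero_or_one x with h | h
    · rw [h]
      simp
      omega
    · rw [h]
      simp
      omega

theorem circ {n m : ℕ} (hn : 1 ≤ n) (hm : 1 ≤ m) {F : ℕ → Fn n} (hF : Bld n m F) :
    ∃ c : GBits n m → Bool, ∀ y, GVal n m c y ↔ F (n + m - 1) y = true := by
  obtain ⟨a, b, hab⟩ := hF.gat
  let c : GBits n m → Bool := fun x => (if x.2.1 = true then b x.1 else a x.1).testBit x.2.2
  have hlt : ∀ x, x ≤ n + m → x < 2 ^ Nat.size (n + m) := fun x hx =>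
    lt_of_le_of_lt hx (Nat.lt_size_self _)
  have hport : ∀ (g : Fin m) (p : Bool), port c g p = if p = true then b g else a g := by
    intro g p
    have hb := bits_sum (Nat.size (n + m)) (if p = true then b g else a g) (hlt _ ?_)
    · exact hb
    have h := hab g g.2
    have hg := g.2
    cases p
    · rw [if_neg Bool.false_ne_true]
      omega
    · rw [if_pos rfl]
      omega
  have hgate : ∀ (w : ℕ → Bool) (y : Fin n → Bool) (g : Fin m),
      (∀ i < n + (g : ℕ), w i = F i y) →
      ((F (n + g) y = false) ↔ ∀ p : Bool, port c g p < n + g → w (port c g p) = true) := by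
    intro w y g hw
    obtain ⟨h1, h2, h3⟩ := hab g g.2
    rw [h3 y, Bool.not_eq_false', Bool.and_eq_true]
    constructor
    · rintro ⟨h4, h5⟩ p hp
      rw [hport] at hp ⊢
      rw [hw _ hp]
      cases p
      · rw [if_neg Bool.false_ne_true] at hp ⊢
        rwa [if_pos hp] at h4
      · rw [if_pos rfl] at hp ⊢
        rwa [if_pos hp] at h5
    · intro h4
      refine ⟨?_, ?_⟩
      · by_cases h5 : a g < n + g
        · rw [if_pos h5, ← hw _ h5]
          have h6 := h4 false
          rw [hport, if_neg Bool.false_ne_true] at h6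
          exact h6 h5
        · rw [if_neg h5]
      · by_cases h5 : b g < n + g
        · rw [if_pos h5, ← hw _ h5]
          have h6 := h4 true
          rw [hport, if_pos rfl] at h6
          exact h6 h5
        · rw [if_neg h5]
  refine ⟨c, fun y => ⟨?_, fun h => ⟨fun i => F i y, ⟨fun i => hF.inp i y, fun g => ?_⟩, h⟩⟩⟩
  · rintro ⟨w, ⟨hw1, hw2⟩, hw3⟩
    have key : ∀ i < n + m, w i = F i y := by
      intro i
      induction i using Nat.strong_induction_on with
      | _ i ih =>
        intro hi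
        by_cases h : i < n
        · rw [hw1 ⟨i, h⟩, hF.inp ⟨i, h⟩ y]
        · obtain ⟨g, rfl⟩ := Nat.exists_eq_add_of_le (not_lt.1 h)
          have hg : g < m := by omega
          have h1 := hw2 ⟨g, hg⟩
          have h2 := hgate w y ⟨g, hg⟩ (fun i h3 => ih i h3 (lt_trans h3 hi))
          have h4 : w (n + g) = false ↔ F (n + g) y = false := h1.trans h2.symm
          cases h5 : w (n + g) <;> cases h6 : F (n + g) y <;> simp_all
    rw [← key _ (by omega)]
    exact hw3
  · exact hgate (fun i => F i y) y g (fun _ _ => rfl)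

/-- Padding. -/
theorem R.gfin {n K m : ℕ} {S : Set (Fn n)} (hn : 1 ≤ n) (h : R n K S) {φ : Fn n} (hφ : φ ∈ S)
    (hm : K + 2 ≤ m) : ∃ c : GBits n m → Bool, ∀ y, GVal n m c y ↔ φ y = true := by
  obtain ⟨m', hm'⟩ := Nat.exists_eq_add_of_le hm
  have e : m = K + m' + 1 + 1 := by omega
  obtain ⟨F, hF, hS⟩ := (h.add m').gnot hφ
  obtain ⟨i, hi, hi2⟩ := hS _ (Set.mem_insert _ _)
  have h1 := hF.step hi.le (le_refl (n + (K + m' + 1)))
  rw [e]
  obtain ⟨c, hc⟩ := circ hn (by omega) h1
  refine ⟨c, fun y => ?_⟩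
  rw [hc y]
  have e1 : n + (K + m' + 1 + 1) - 1 = n + (K + m' + 1) := by omega
  rw [e1, upd_eq, hi2]
  beta_reduce
  rw [hF.out _ le_rfl y, Bool.and_true, Bool.not_not]

end CktA

open CktA in
theorem tCkt : S_Ckt := by
  intro n N l W m ω hn hm
  have h1 := (R.zero n).gfam (le_refl _) ω
  obtain ⟨c, hc⟩ := h1.gfin hn (Set.mem_insert _ _) (m := m) (by
    have h2 : N * (l * (5 * W + 4) + 6) ≤ N * (l * (6 * W + 6) + 6) :=
      Nat.mul_le_mul_left _ (Nat.add_le_add_right (Nat.mul_le_mul_left _ (by omega)) _)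
    omega)
  refine ⟨c, fun y => ?_⟩
  rw [hc y, bc_iff]

end SRBP
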