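import Pool.Agent.Lib.MP_9dcf40_lc.DV.Spec
import Pool.Agent.Lib.MP_9dcf40_lc.LIN.QuaQ

/-! # Small circuits, module T3: codes (Gilbert's argument for linear codes) -/

namespace SRBP

open Finset

namespace CodeAux

variable {n : ℕ}

open scoped Classical in
/-- The number of vectors which agree with `x` outside `V` and differ from it in less than `d` places. -/
theorem ball_le (d : ℕ) (V : Finset (Fin n)) (x : Fin n → Bool) (S : Finset (Fin n → Bool))
    (h1 : ∀ y ∈ S, ∀ v, v ∉ V → y v = x v)
    (h2 : ∀ y ∈ S, (V.filter (fun v => x v ≠ y v)).card < d) : S.card ≤ (n + 1) ^ d := by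
  refine le_trans ?_ (QuaQAux.few n d)
  refine card_le_card_of_injOn (fun y => V.filter (fun v => x v ≠ y v)) ?_ ?_
  · intro y hy
    exact mem_filter.2 ⟨mem_univ _, (h2 y hy).le⟩
  · intro y hy y' hy' he
    have he' : V.filter (fun v => x v ≠ y v) = V.filter (fun v => x v ≠ y' v) := he
    funext v
    by_cases hv : v ∈ V
    · have h3 : (v ∈ V.filter (fun v => x v ≠ y v)) ↔ (v ∈ V.filter (fun v => x v ≠ y' v)) := by
        rw [he']
      rw [mem_filter, mem_filter] at h3
      cases hx : x v <;> cases hy1 : y v <;> cases hy2 : y' v <;> simp_all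
    · rw [h1 y hy v hv, h1 y' hy' v hv]

/-- XOR of vectors. -/
def vx (x y : Fin n → Bool) : Fin n → Bool := fun v => xor (x v) (y v)

/-- The conditions on the code. -/
def Cod (d : ℕ) (U : Finset (Fin n)) (D : Finset (Fin n → Bool)) : Prop :=
  (fun _ => false) ∈ D ∧ (∀ x ∈ D, ∀ y ∈ D, vx x y ∈ D) ∧
  (∀ x ∈ D, ∀ v, v ∉ U → x v = false) ∧
  ∀ x ∈ D, ∀ y ∈ D, x ≠ y → d ≤ (U.filter (fun v => x v ≠ y v)).card

open scoped Classical in
/-- A vector which is far from the code can be added. -/
theorem add_coset {d : ℕ} {U : Finset (Fin n)} {D : Finset (Fin n → Bool)} (hd : 1 ≤ d)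
    (hD : Cod d U D) {z : Fin n → Bool} (hz : ∀ v, v ∉ U → z v = false)
    (hfar : ∀ x ∈ D, d ≤ (U.filter (fun v => x v ≠ z v)).card) :
    Cod d U (D ∪ D.image (vx z)) ∧ D.card < (D ∪ D.image (vx z)).card := by
  obtain ⟨h0, h1, h2, h3⟩ := hD
  have hmem : ∀ w, w ∈ D ∪ D.image (vx z) ↔ w ∈ D ∨ ∃ y ∈ D, vx z y = w := by
    intro w
    rw [mem_union, mem_image]
  refine ⟨⟨mem_union_left _ h0, ?_, ?_, ?_⟩, ?_⟩
  · intro x hx y hy
    rw [hmem] at hx hy ⊢
    rcases hx with hx | ⟨x', hx', rfl⟩ <;> rcases hy with hy | ⟨y', hy', rfl⟩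
    · exact Or.inl (h1 x hx y hy)
    · refine Or.inr ⟨vx x y', h1 x hx y' hy', ?_⟩
      funext v
      simp only [vx]
      cases z v <;> cases x v <;> cases y' v <;> rfl
    · refine Or.inr ⟨vx x' y, h1 x' hx' y hy, ?_⟩
      funext v
      simp only [vx]
      cases z v <;> cases x' v <;> cases y v <;> rfl
    · left
      have h4 : vx (vx z x') (vx z y') = vx x' y' := by
        funext v
        simp only [vx]
        cases z v <;> cases x' v <;> cases y' v <;> rfl
      rw [h4]
      exact h1 x' hx' y' hy'
  · intro x hx v hv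
    rw [hmem] at hx
    rcases hx with hx | ⟨x', hx', rfl⟩
    · exact h2 x hx v hv
    · simp only [vx]
      rw [hz v hv, h2 x' hx' v hv]
      rfl
  · intro x hx y hy hxy
    rw [hmem] at hx hy
    rcases hx with hx | ⟨x', hx', rfl⟩ <;> rcases hy with hy | ⟨y', hy', rfl⟩
    · exact h3 x hx y hy hxy
    · have h4 := hfar (vx x y') (h1 x hx y' hy')
      refine h4.trans (le_of_eq (congrArg card (filter_congr fun v _ => ?_)))
      simp only [vx]
      cases z v <;> cases x v <;> cases y' v <;> simp
    · have h4 := hfar (vx x' y) (h1 x' hx' y hy)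
      refine h4.trans (le_of_eq (congrArg card (filter_congr fun v _ => ?_)))
      simp only [vx]
      cases z v <;> cases x' v <;> cases y v <;> simp
    · have hne : x' ≠ y' := fun h => hxy (by rw [h])
      have h4 := h3 x' hx' y' hy' hne
      refine h4.trans (le_of_eq (congrArg card (filter_congr fun v _ => ?_)))
      simp only [vx]
      cases z v <;> cases x' v <;> cases y' v <;> simp
  · have hzD : z ∉ D := by
      intro h
      have h4 := hfar z h
      have h5 : U.filter (fun v => z v ≠ z v) = ∅ := by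
        rw [filter_eq_empty_iff]
        intro v _ h6
        exact h6 rfl
      rw [h5, card_empty] at h4
      omega
    refine card_lt_card ((ssubset_iff_of_subset subset_union_left).2 ⟨z, ?_, hzD⟩)
    refine mem_union_right _ (mem_image.2 ⟨fun _ => false, h0, ?_⟩)
    funext v
    simp [vx]

end CodeAux

open scoped Classical in
open CodeAux in
theorem tCode : S_Code := by
  intro n d U hd
  set G : Finset (Finset (Fin n → Bool)) := univ.filter (fun D => Cod d U D) with hG
  have hne : G.Nonempty := by
    refine ⟨{fun _ => false}, mem_filter.2 ⟨mem_univ _, mem_singleton_self _, ?_, ?_, ?_⟩⟩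
    · intro x hx y hy
      rw [mem_singleton] at hx hy ⊢
      subst hx
      subst hy
      funext v
      rfl
    · intro x hx v _
      rw [mem_singleton] at hx
      rw [hx]
    · intro x hx y hy hxy
      rw [mem_singleton] at hx hy
      exact absurd (hx.trans hy.symm) hxy
  obtain ⟨D, hDG, hmax⟩ := exists_max_image G card hne
  have hD : Cod d U D := (mem_filter.1 hDG).2
  refine ⟨D, hD.1, hD.2.1, hD.2.2.1, hD.2.2.2, ?_⟩
  -- the balls cover
  set Z : Finset (Fin n → Bool) := univ.filter (fun z => ∀ v, v ∉ U → z v = false) with hZ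
  have hcov : Z ⊆ D.biUnion (fun x => Z.filter (fun z => (U.filter (fun v => x v ≠ z v)).card < d)) := by
    intro z hz
    by_contra hcon
    rw [mem_biUnion] at hcon
    push Not at hcon
    have hfar : ∀ x ∈ D, d ≤ (U.filter (fun v => x v ≠ z v)).card := by
      intro x hx
      by_contra h
      exact hcon x hx (mem_filter.2 ⟨hz, not_le.1 h⟩)
    obtain ⟨h1, h2⟩ := add_coset hd hD (mem_filter.1 hz).2 hfar
    exact absurd (hmax _ (mem_filter.2 ⟨mem_univ _, h1⟩)) (not_le.2 h2)
  have hZc : 2 ^ U.card ≤ Z.card := by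
    rw [← card_powerset]
    refine card_le_card_of_injOn (fun S => fun v => decide (v ∈ S)) ?_ ?_
    · intro S hS
      refine mem_filter.2 ⟨mem_univ _, fun v hv => ?_⟩
      have : v ∉ S := fun h => hv (mem_powerset.1 hS h)
      simp [this]
    · intro S _ S' _ he
      have he' : (fun v => decide (v ∈ S)) = fun v => decide (v ∈ S') := he
      ext v
      have h1 := congrFun he' v
      simp only [decide_eq_decide] at h1
      exact h1
  have hle : Z.card ≤ D.card * (n + 1) ^ d := by
    refine (card_le_card hcov).trans (card_biUnion_le.trans ?_)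
    calc ∑ x ∈ D, (Z.filter (fun z => (U.filter (fun v => x v ≠ z v)).card < d)).card
        ≤ ∑ _x ∈ D, (n + 1) ^ d := by
          refine sum_le_sum fun x hx => ball_le d U x _ ?_ ?_
          · intro y hy v hv
            rw [(mem_filter.1 (mem_filter.1 hy).1).2 v hv, hD.2.2.1 x hx v hv]
          · intro y hy
            exact (mem_filter.1 hy).2
      _ = D.card * (n + 1) ^ d := by rw [sum_const, smul_eq_mul]
  exact_mod_cast hZc.trans hle

end SRBP
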