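import Pool.Agent.Lib.MP_9dcf40_lc.DV.Code
import Pool.Agent.Lib.MP_9dcf40_lc.DTR.DiscX

/-! # Small circuits, module T4a: from correlations to discrepancy -/

namespace SRBP

open Finset

open scoped Classical in
open CodeAux DX in
theorem tCorG : S_CorG := by
  intro n d g U κ hg hκ hd hcor A B hA hB
  have h1 := sq_sum_le_card_mul_sum_sq (s := A) (f := fun a => ∑ b ∈ B, g (glue U a b))
  refine h1.trans (mul_le_mul_of_nonneg_left ?_ (Nat.cast_nonneg _))
  have h2 := rows_le U A hA (fun a => (∑ b ∈ B, g (glue U a b)) ^ 2)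
    (fun a => sq_nonneg _) (fun a x => by
      have : ∀ b, glue U (glue U a x) b = glue U a b := by
        intro b
        funext v
        by_cases hv : v ∈ U
        · rw [glue_in hv, glue_in hv, glue_in hv]
        · rw [glue_out hv, glue_out hv]
      simp only [this])
  have h3 : ∑ a : Fin n → Bool, (∑ b ∈ B, g (glue U a b)) ^ 2 ≤
      2 ^ n * (B.card * ((n : ℝ) + 1) ^ d + B.card ^ 2 * κ) := by
    have h4 : ∑ a : Fin n → Bool, (∑ b ∈ B, g (glue U a b)) ^ 2 =
        ∑ b ∈ B, ∑ b' ∈ B, ∑ a : Fin n → Bool, g (glue U a b) * g (glue U a b') := by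
      have h5 : ∀ a : Fin n → Bool, (∑ b ∈ B, g (glue U a b)) ^ 2 =
          ∑ b ∈ B, ∑ b' ∈ B, g (glue U a b) * g (glue U a b') := by
        intro a
        rw [sq, sum_mul_sum]
      rw [sum_congr rfl (fun a _ => h5 a), sum_comm]
      refine sum_congr rfl (fun b _ => ?_)
      rw [sum_comm]
    rw [h4]
    have h5 : ∀ b ∈ B, ∑ b' ∈ B, ∑ a : Fin n → Bool, g (glue U a b) * g (glue U a b') ≤
        2 ^ n * ((n : ℝ) + 1) ^ d + B.card * (2 ^ n * κ) := by
      intro b hb
      have h6 : ∀ b' ∈ B, ∑ a : Fin n → Bool, g (glue U a b) * g (glue U a b') ≤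
          (if ((univ \ U).filter (fun v => b v ≠ b' v)).card < d then (2 : ℝ) ^ n else 0) +
            2 ^ n * κ := by
        intro b' hb'
        by_cases hbb : ((univ \ U).filter (fun v => b v ≠ b' v)).card < d
        · rw [if_pos hbb]
          have h7 : ∑ a : Fin n → Bool, g (glue U a b) * g (glue U a b') ≤
              ∑ _a : Fin n → Bool, (1 : ℝ) := by
            refine sum_le_sum (fun a _ => ?_)
            refine (le_abs_self _).trans ?_
            rw [abs_mul]
            exact mul_le_one₀ (hg _) (abs_nonneg _) (hg _)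
          rw [sum_const, card_univ, Fintype.card_fun, Fintype.card_bool, Fintype.card_fin,
            nsmul_eq_mul, mul_one] at h7
          push_cast at h7
          have h8 : (0 : ℝ) ≤ 2 ^ n * κ := by positivity
          linarith
        · rw [if_neg hbb, zero_add]
          exact (le_abs_self _).trans (hcor b b' (not_lt.1 hbb))
      have h7 : ((B.filter (fun b' => ((univ \ U).filter (fun v => b v ≠ b' v)).card < d)).card : ℝ) ≤
          ((n : ℝ) + 1) ^ d := by
        have h8 := ball_le d (univ \ U) b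
          (B.filter (fun b' => ((univ \ U).filter (fun v => b v ≠ b' v)).card < d))
          (fun y hy v hv => hB y (mem_filter.1 hy).1 b hb v (by
            by_contra h
            exact hv (mem_sdiff.2 ⟨mem_univ _, h⟩)))
          (fun y hy => (mem_filter.1 hy).2)
        exact_mod_cast h8
      calc ∑ b' ∈ B, ∑ a : Fin n → Bool, g (glue U a b) * g (glue U a b') ≤
            ∑ b' ∈ B, ((if ((univ \ U).filter (fun v => b v ≠ b' v)).card < d then (2 : ℝ) ^ n
              else 0) + 2 ^ n * κ) := sum_le_sum h6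
        _ = (B.filter (fun b' => ((univ \ U).filter (fun v => b v ≠ b' v)).card < d)).card *
              2 ^ n + B.card * (2 ^ n * κ) := by
            rw [sum_add_distrib, ← sum_filter, sum_const, sum_const, nsmul_eq_mul, nsmul_eq_mul]
        _ ≤ ((n : ℝ) + 1) ^ d * 2 ^ n + B.card * (2 ^ n * κ) := by
            gcongr
        _ = _ := by ring
    refine (sum_le_sum h5).trans (le_of_eq ?_)
    rw [sum_const, nsmul_eq_mul]
    ring
  have h4 : (2 : ℝ) ^ n * ∑ a ∈ A, (∑ b ∈ B, g (glue U a b)) ^ 2 ≤
      2 ^ n * (2 ^ U.card * (B.card * ((n : ℝ) + 1) ^ d + B.card ^ 2 * κ)) := by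
    calc _ ≤ (2 : ℝ) ^ U.card * ∑ a : Fin n → Bool, (∑ b ∈ B, g (glue U a b)) ^ 2 := h2
      _ ≤ 2 ^ U.card * (2 ^ n * (B.card * ((n : ℝ) + 1) ^ d + B.card ^ 2 * κ)) :=
          mul_le_mul_of_nonneg_left h3 (by positivity)
      _ = _ := by ring
  exact le_of_mul_le_mul_left h4 (by positivity)

end SRBP
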