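import Pool.Agent.Lib.MP_9dcf40_lc.DV.Model
import Pool.Agent.Lib.MP_9dcf40_lc.DU.SpecX
import Pool.Agent.Lib.MP_9dcf40_lc.DTR.PartX

/-!
# Small circuits (MP_9dcf40_lc): `n ^ (1 + ε)` gates, statements of the modules
-/

namespace SRBP

open Finset

/-- XOR of at most `W` inputs. -/
def rowv {n W : ℕ} (r : Fin W → Fin n × Bool) (y : Fin n → Bool) : ZMod 2 :=
  ∑ u, if (r u).2 = true ∧ y (r u).1 = true then 1 else 0

/-- The `l` rows have the prescribed values. -/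
def hit {n l W : ℕ} (q : Fin l → (Fin W → Fin n × Bool) × Bool) (y : Fin n → Bool) : Prop :=
  ∀ j, rowv (q j).1 y = if (q j).2 = true then 1 else 0

/-- The parameters of the functions. -/
abbrev Fam (n N l W : ℕ) : Type := Fin N → Fin l → (Fin W → Fin n × Bool) × Bool

open scoped Classical in
/-- The function with the parameter `ω`. -/
noncomputable def fam {n N l W : ℕ} (ω : Fam n N l W) (y : Fin n → Bool) : ZMod 2 :=
  ∑ i, if hit (ω i) y then 1 else 0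

open scoped Classical in
/-- The sign of the function. -/
noncomputable def famc {n N l W : ℕ} (ω : Fam n N l W) (y : Fin n → Bool) : ℝ :=
  if fam ω y = 1 then -1 else 1

/-- T1. POSITIONS: `x j`, `j ∈ J`, are points, one point `P` occurs an odd number of times, the others have
distance `≥ d` from it. PROOF. One row: `∑_r (-1)^(rowv r y + rowv r y') = (2 n - 2 |y △ y'|)^W ≤ (2 n)^W exp (-W d/n)`, so the
rows with the same value on `y` and `y'` are at most `3/4` of all. One position: for at least half of the rows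
(`|J| (3/4)^l ≤ 1/2`) all other points have a value of the `l` rows different from that of `P`; if then the
prescribed values are those of `P` (`2^(-l)`) exactly the odd number of copies of `P` is hit: the parity of hits is odd
with probability `≥ 2^(-l-1)`, and `≤ |J| 2^(-l) ≤ 1/2`; so `0 ≤ E (-1)^hits ≤ 1 - 2^(-l)`. Product over the positions. -/
def S_Pos : Prop := ∀ (n N l W d : ℕ) (J : Type) [Fintype J] (x : J → Fin n → Bool) (P : Fin n → Bool),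
  1 ≤ n → n ≤ W * d → 2 * (Fintype.card J : ℝ) * (3 / 4) ^ l ≤ 1 → Odd (Nat.card {j // x j = P}) →
  (∀ j, x j ≠ P → d ≤ (univ.filter (fun v => x j v ≠ P v)).card) →
  0 ≤ ∑ ω : Fam n N l W, ∏ j, famc ω (x j) ∧
  ∑ ω : Fam n N l W, ∏ j, famc ω (x j) ≤ Fintype.card (Fam n N l W) * Real.exp (-(N / 2 ^ l : ℝ))

/-- T2. MOMENT (from T1): `K` = points with pairwise distance `≥ d` on `U`, `b`, `b'` have distance `≥ d` outside `U`.
PROOF. Expand; a tuple in `K^(2 p)` in which some value occurs an odd number of times: T1 for the `4 p` points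
`glue U a_j b`, `glue U a_j b'` and `P = glue U a b`. Tuples in which each value occurs an even number of times: at most
`(2 p |K|)^p` (induction on `p`: the last element equals an earlier one; remove both). -/
def S_Mom : Prop := ∀ (n N l W d p : ℕ) (U : Finset (Fin n)) (K : Finset (Fin n → Bool)) (b b' : Fin n → Bool),
  1 ≤ n → 1 ≤ p → n ≤ W * d → 1 ≤ d → 8 * (p : ℝ) * (3 / 4) ^ l ≤ 1 →
  (∀ a ∈ K, ∀ a' ∈ K, a ≠ a' → d ≤ (U.filter (fun v => a v ≠ a' v)).card) →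
  d ≤ ((univ \ U).filter (fun v => b v ≠ b' v)).card →
  ∑ ω : Fam n N l W, (∑ a ∈ K, famc ω (glue U a b) * famc ω (glue U a b')) ^ (2 * p) ≤
    Fintype.card (Fam n N l W) *
      ((2 * p * K.card : ℝ) ^ p + (K.card : ℝ) ^ (2 * p) * Real.exp (-(N / 2 ^ l : ℝ)))

/-- T3. CODE: a set of vectors supported on `U`, closed under XOR, distances `≥ d`, of size `≥ 2^|U| / (n+1)^d`. PROOF. A maximal
one `D`: every vector supported on `U` has distance `< d` from `D` (otherwise add its coset), and the number of vectors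
at distance `< d` from a given one is `≤ (n+1)^d`. -/
def S_Code : Prop := ∀ (n d : ℕ) (U : Finset (Fin n)), 1 ≤ d → ∃ D : Finset (Fin n → Bool),
  (fun _ => false) ∈ D ∧ (∀ x ∈ D, ∀ y ∈ D, (fun v => xor (x v) (y v)) ∈ D) ∧
  (∀ x ∈ D, ∀ v, v ∉ U → x v = false) ∧ (∀ x ∈ D, ∀ y ∈ D, x ≠ y → d ≤ (U.filter (fun v => x v ≠ y v)).card) ∧
  (2 : ℝ) ^ U.card ≤ D.card * ((n : ℝ) + 1) ^ d

/-- The discrepancy needed in `coreX`. -/
def GoodF (n : ℕ) (s₀ : ℝ) (g : (Fin n → Bool) → ℝ) : Prop := ∀ s : ℕ, s₀ ≤ s →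
  DiscX g s (2 ^ s * Real.exp (-((s : ℝ) / 1000))) (Real.exp ((s : ℝ) / 100)) (Real.exp (-((s : ℝ) / 1000)))

/-- T4a. FROM CORRELATIONS TO DISCREPANCY (as `DX.disc_of`): only pairs `b`, `b'` at distance `≥ d` are small; the number
of the other pairs is `≤ |B| (n+1)^d`. -/
def S_CorG : Prop := ∀ (n d : ℕ) (g : (Fin n → Bool) → ℝ) (U : Finset (Fin n)) (κ : ℝ), (∀ x, |g x| ≤ 1) → 0 ≤ κ → 1 ≤ d →
  (∀ b b' : Fin n → Bool, d ≤ ((univ \ U).filter (fun v => b v ≠ b' v)).card →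
    |∑ a : Fin n → Bool, g (glue U a b) * g (glue U a b')| ≤ 2 ^ n * κ) →
  ∀ A B : Finset (Fin n → Bool), (∀ a ∈ A, ∀ a' ∈ A, ∀ v, v ∉ U → a v = a' v) →
    (∀ b ∈ B, ∀ b' ∈ B, ∀ v ∈ U, b v = b' v) →
    (∑ a ∈ A, ∑ b ∈ B, g (glue U a b)) ^ 2 ≤
      A.card * (2 ^ U.card * (B.card * ((n : ℝ) + 1) ^ d + B.card ^ 2 * κ))

/-- T4b. GOOD FUNCTIONS WITH SMALL PARAMETERS. PROOF. `δ = ε / 8`, `s₀ = n^(1-δ)`, `d = ⌊s₀ / (200 log (n+1))⌋`, `W = ⌈n/d⌉`,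
`p = ⌈48 n / s₀⌉`, `l` minimal with `8 p (3/4)^l ≤ 1`, `N = 8 p n 2^l`. For all `U` with `|U| = s ≥ s₀`: code `D`, `|D| ≥ 2^s exp (-s/200) ≥
2^(s/2)`; `K = e xor D`; `P (|∑_K| > |K| 2^(-s/8)) ≤ 2^(p s/4) ((2 p / |K|)^p + exp (-N/2^l)) ≤ 2 * 2^(-6 n)`; union over `U, b, b', e`
(`2^(4 n)`); `∑_(all a) = |D|^(-1) ∑_e ∑_(K = e xor D)`, so `κ = 2^(-s/8)` in T4a, and
`disc² ≤ |A|² |B|² exp (s/1000) (exp (s/200 - s/100) + 2^(-s/8)) ≤ |A|² |B|² exp (-s/500)`. -/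
def S_FamGood : Prop := ∀ ε : ℝ, 0 < ε → ε ≤ 1 → ∃ n₀ : ℕ, ∀ n ≥ n₀, ∃ (N l W : ℕ) (ω : Fam n N l W),
  ((N * (l * (6 * W + 6) + 6) + 6 : ℕ) : ℝ) ≤ (n : ℝ) ^ (1 + ε) ∧ GoodF n ((n : ℝ) ^ (1 - ε / 8)) (famc ω)

/-- T5. TOPF: `topX_of` for every function with small discrepancy; `A = ⌈1000 / ε⌉`-like. -/
def S_TopF : Prop := ∀ ε : ℝ, 0 < ε → ε ≤ 1 → ∃ A n₀ : ℕ, 1 ≤ A ∧ ∀ n ≥ n₀, ∀ f : (Fin n → Bool) → Prop,
  GoodF n ((n : ℝ) ^ (1 - ε / 8)) (chi f) → TopX A n f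

/-- T6. CIRCUITS. -/
def S_Ckt : Prop := ∀ (n N l W m : ℕ) (ω : Fam n N l W), 1 ≤ n → N * (l * (6 * W + 6) + 6) + 6 ≤ m →
  ∃ c : GBits n m → Bool, ∀ y, GVal n m c y ↔ fam ω y = 1

/-- Part (1) for a set `κ` of circuit bits and a value predicate. -/
def PartG1 (A n : ℕ) (f : (Fin n → Bool) → Prop) : Prop :=
  ∀ k a : ℕ, 2 ≤ k → 1 ≤ a → a * (k : ℝ) ^ (A * k) ≤ n → ∀ P : NBP (Fin n), SUnamb P →
    (Fintype.card P.V : ℝ) < Real.exp (n / (a * (k : ℝ) ^ (A * k))) →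
    |(Nat.card {y : Fin n → Bool // AccIn P (k * n) y ∧ f y} : ℝ) -
        Nat.card {y : Fin n → Bool // AccIn P (k * n) y ∧ ¬ f y}| ≤
      (Nat.card {y : Fin n → Bool // AccIn P (k * n) y} : ℝ) / 2 ^ a +
        2 ^ n * Real.exp (-(n / (k : ℝ) ^ (A * k)))

/-- Part (2). `F` = the parity of the values of the circuit on the `t` inputs. -/
def PartG2 (A n : ℕ) (κ : Type) [Fintype κ] (c : κ → Bool)
    (F : ∀ t : ℕ, (κ ⊕ Fin t × Fin n → Bool) → Prop) : Prop :=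
  ∀ k a : ℕ, 2 ≤ k → 1 ≤ a → a ^ 2 * (k : ℝ) ^ (A * k) * Real.log n ≤ n →
    ∀ t T : ℕ, Fintype.card κ ≤ t * n → T = k * Fintype.card (κ ⊕ Fin t × Fin n) →
    ∀ P : NBP (κ ⊕ Fin t × Fin n), SUnamb P →
    (Fintype.card P.V : ℝ) < Real.exp (n / (a * (k : ℝ) ^ (A * k))) →
    |(Nat.card {Y : Fin t × Fin n → Bool // AccIn P T (Sum.elim c Y) ∧ F t (Sum.elim c Y)} : ℝ) -
        Nat.card {Y : Fin t × Fin n → Bool // AccIn P T (Sum.elim c Y) ∧ ¬ F t (Sum.elim c Y)}| ≤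
      (Nat.card {Y : Fin t × Fin n → Bool // AccIn P T (Sum.elim c Y)} : ℝ) / 2 ^ a +
        2 ^ (t * n) * Real.exp (-(n / (k : ℝ) ^ (A * k)))

/-- Part (3). -/
def PartG3 (A n : ℕ) (κ : Type) [Fintype κ] (F : ∀ t : ℕ, (κ ⊕ Fin t × Fin n → Bool) → Prop) : Prop :=
  ∀ k a : ℕ, 2 ≤ k → 1 ≤ a → a ^ 2 * (k : ℝ) ^ (A * k) * Real.log n ≤ n →
    ∀ t T : ℕ, Fintype.card κ ≤ t * n → T = k * Fintype.card (κ ⊕ Fin t × Fin n) →
    ∀ (I : Type) [Fintype I] (P : I → Bool → NBP (κ ⊕ Fin t × Fin n)) (w : I → ℝ),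
      (∀ i, 0 ≤ w i) → ∑ i, w i = 1 → (∀ i b, SUnamb (P i b)) →
      (∀ i T z, ¬ (AccIn (P i true) T z ∧ AccIn (P i false) T z)) →
      (∀ i b, (Fintype.card (P i b).V : ℝ) < Real.exp (n / (a * (k : ℝ) ^ (A * k)))) →
      ∃ z : κ ⊕ Fin t × Fin n → Bool, ∀ S : Finset I,
        (∀ i ∈ S, ∃ b : Bool, AccIn (P i b) T z ∧ (b = true ↔ F t z)) → ∑ i ∈ S, w i < 1 / 2 + 1 / 2 ^ a

/-- T7. END, generic: `EndX` with any type of circuit bits and any value predicate `val`. -/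
def S_EndG : Prop := ∀ A₀ : ℕ, 1 ≤ A₀ → ∃ A N : ℕ, A₀ ≤ A ∧ ∀ n ≥ N, ∀ (κ : Type) [Fintype κ] [Nonempty κ]
  (val : (κ → Bool) → (Fin n → Bool) → Prop) (c : κ → Bool), TopX A₀ n (val c) →
  PartG1 A n (val c) ∧
  PartG2 A n κ c (fun t z => Odd (Nat.card {j : Fin t // val (fun a => z (Sum.inl a)) (fun i => z (Sum.inr (j, i)))})) ∧
  PartG3 A n κ (fun t z => Odd (Nat.card {j : Fin t // val (fun a => z (Sum.inl a)) (fun i => z (Sum.inr (j, i)))}))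

end SRBP
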