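import Pool.Agent.Lib.MP_9dcf40_lc.DV.Spec

/-!
# Small circuits (MP_9dcf40_lc), T2: the moments
-/

namespace SRBP

open Finset

namespace MomT

open scoped Classical in
/-- The tuples in which every value occurs an even number of times. -/
noncomputable def evT (ι α : Type) [Fintype ι] [Fintype α] : Finset (ι → α) :=
  univ.filter (fun τ => ∀ a, Even (Nat.card {i // τ i = a}))

theorem mem_evT {ι α : Type} [Fintype ι] [Fintype α] (τ : ι → α) :
    τ ∈ evT ι α ↔ ∀ a, Even (Nat.card {i // τ i = a}) := by
  classical
  unfold evT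
  rw [mem_filter]
  exact ⟨fun h => h.2, fun h => ⟨@Finset.mem_univ _ _ _, h⟩⟩

/-- Two equal entries are removed. -/
theorem card_rest {ι α : Type} [Fintype ι] (τ : ι → α) {i₀ i₁ : ι}
    (h : i₁ ≠ i₀) (he : τ i₁ = τ i₀) (a : α) :
    ∃ k : ℕ, Nat.card {i // τ i = a} =
      Nat.card {i : {i : ι // i ≠ i₀ ∧ i ≠ i₁} // τ i = a} + 2 * k := by
  classical
  refine ⟨if τ i₀ = a then 1 else 0, ?_⟩
  rw [Nat.card_eq_fintype_card, Nat.card_eq_fintype_card, Fintype.card_subtype, Fintype.card_subtype]
  have h1 : (univ.filter (fun i : {i : ι // i ≠ i₀ ∧ i ≠ i₁} => τ i = a)).card =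
      ∑ i ∈ (univ.erase i₀).erase i₁, if τ i = a then 1 else 0 := by
    rw [card_filter]
    refine (Finset.sum_subtype _ (fun i => ?_) (fun i => if τ i = a then 1 else 0)).symm
    rw [mem_erase, mem_erase]
    constructor
    · rintro ⟨h1, h2, -⟩
      exact ⟨h2, h1⟩
    · rintro ⟨h1, h2⟩
      exact ⟨h2, h1, mem_univ _⟩
  rw [h1, card_filter, ← Finset.add_sum_erase univ _ (mem_univ i₀),
    ← Finset.add_sum_erase (univ.erase i₀) _ (mem_erase.2 ⟨h, mem_univ _⟩), he]
  split_ifs <;> ring

theorem card_evT (p : ℕ) : ∀ (ι α : Type) [Fintype ι] [Fintype α], Fintype.card ι = 2 * p →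
    (evT ι α).card ≤ (2 * p * Fintype.card α) ^ p := by
  classical
  induction p with
  | zero =>
    intro ι α _ _ h
    rw [pow_zero]
    have : IsEmpty ι := Fintype.card_eq_zero_iff.1 (by omega)
    exact card_le_one.2 fun a _ b _ => Subsingleton.elim a b
  | succ p ih =>
    intro ι α _ _ h
    have hne : Nonempty ι := Fintype.card_pos_iff.1 (by omega)
    obtain ⟨i₀⟩ := hne
    have h1 : evT ι α ⊆ (univ.erase i₀).biUnion fun i₁ => (evT ι α).filter fun τ => τ i₁ = τ i₀ := by
      intro τ hτ
      rw [mem_biUnion]
      by_contra hc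
      push Not at hc
      have h2 := (mem_evT τ).1 hτ (τ i₀)
      have h3 : (univ.filter (fun i => τ i = τ i₀)) = {i₀} := by
        ext i
        rw [mem_filter, mem_singleton]
        constructor
        · rintro ⟨_, hi⟩
          by_contra hne
          exact hc i (mem_erase.2 ⟨hne, mem_univ _⟩) (mem_filter.2 ⟨hτ, hi⟩)
        · rintro rfl
          exact ⟨mem_univ _, rfl⟩
      rw [Nat.card_eq_fintype_card, Fintype.card_subtype, h3, card_singleton] at h2
      exact absurd h2 (by decide)
    have h2 : ∀ i₁ ∈ univ.erase i₀, ((evT ι α).filter fun τ => τ i₁ = τ i₀).card ≤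
        Fintype.card α * (2 * p * Fintype.card α) ^ p := by
      intro i₁ hi₁
      have hi : i₁ ≠ i₀ := (mem_erase.1 hi₁).1
      have hc : Fintype.card {i : ι // i ≠ i₀ ∧ i ≠ i₁} = 2 * p := by
        rw [Fintype.card_subtype]
        have : univ.filter (fun i => i ≠ i₀ ∧ i ≠ i₁) = (univ.erase i₀).erase i₁ := by
          ext i
          simp only [mem_filter, mem_univ, true_and, mem_erase, and_true]
          exact and_comm
        rw [this, card_erase_of_mem hi₁, card_erase_of_mem (mem_univ _), card_univ, h]
        omega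
      refine le_trans ?_ (Nat.mul_le_mul_left _ (ih {i : ι // i ≠ i₀ ∧ i ≠ i₁} α hc))
      rw [← card_univ (α := α), ← card_product]
      refine card_le_card_of_injOn (fun τ => (τ i₀, fun i => τ i)) ?_ ?_
      · intro τ hτ
        rw [mem_coe, mem_filter] at hτ
        rw [mem_coe, mem_product]
        refine ⟨mem_univ _, (mem_evT _).2 fun a => ?_⟩
        have h3 := (mem_evT τ).1 hτ.1 a
        obtain ⟨k, hk⟩ := card_rest τ hi hτ.2 a
        rw [hk, Nat.even_add] at h3
        exact h3.2 (even_two_mul k)
      · intro τ hτ τ' hτ' he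
        rw [mem_coe, mem_filter] at hτ hτ'
        obtain ⟨e1, e2⟩ := Prod.ext_iff.1 he
        simp only at e1 e2
        funext i
        by_cases h0 : i = i₀
        · rw [h0, e1]
        · by_cases h1 : i = i₁
          · rw [h1, hτ.2, hτ'.2, e1]
          · exact congrFun e2 ⟨i, h0, h1⟩
    calc (evT ι α).card ≤ _ := card_le_card h1
      _ ≤ ∑ i₁ ∈ univ.erase i₀, ((evT ι α).filter fun τ => τ i₁ = τ i₀).card := card_biUnion_le
      _ ≤ ∑ _i₁ ∈ univ.erase i₀, Fintype.card α * (2 * p * Fintype.card α) ^ p := sum_le_sum h2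
      _ = (2 * p + 1) * (Fintype.card α * (2 * p * Fintype.card α) ^ p) := by
        rw [sum_const, card_erase_of_mem (mem_univ _), card_univ, h, smul_eq_mul]
        congr 1
      _ ≤ (2 * (p + 1)) * (Fintype.card α * (2 * (p + 1) * Fintype.card α) ^ p) := by
        gcongr <;> omega
      _ = (2 * (p + 1) * Fintype.card α) ^ (p + 1) := by rw [pow_succ]; ring

theorem famc_abs {n N l W : ℕ} (ω : Fam n N l W) (y : Fin n → Bool) : |famc ω y| = 1 := by
  unfold famc
  split_ifs <;> simp

end MomT

open MomT in
theorem tMom (hPos : S_Pos) : S_Mom := by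
  classical
  intro n N l W d p U K b b' hn hp hWd hd hl hK hb
  -- expansion
  have e1 : ∀ ω : Fam n N l W, (∑ a ∈ K, famc ω (glue U a b) * famc ω (glue U a b')) ^ (2 * p) =
      ∑ τ : Fin (2 * p) → K, ∏ i, (famc ω (glue U (τ i) b) * famc ω (glue U (τ i) b')) := by
    intro ω
    rw [← Finset.sum_coe_sort K (fun a => famc ω (glue U a b) * famc ω (glue U a b')),
      Fintype.sum_pow]
  rw [Finset.sum_congr rfl fun ω _ => e1 ω, Finset.sum_comm]
  -- the bound for one tuple
  have hτ : ∀ τ : Fin (2 * p) → K,
      ∑ ω : Fam n N l W, ∏ i, (famc ω (glue U (τ i) b) * famc ω (glue U (τ i) b')) ≤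
        (if τ ∈ evT (Fin (2 * p)) K then (Fintype.card (Fam n N l W) : ℝ) else 0) +
          Fintype.card (Fam n N l W) * Real.exp (-(N / 2 ^ l : ℝ)) := by
    intro τ
    split_ifs with h
    · have h1 : ∑ ω : Fam n N l W, ∏ i, (famc ω (glue U (τ i) b) * famc ω (glue U (τ i) b')) ≤
          ∑ _ω : Fam n N l W, (1 : ℝ) := by
        refine Finset.sum_le_sum fun ω _ => ?_
        refine (le_abs_self _).trans ?_
        rw [Finset.abs_prod]
        refine (Finset.prod_eq_one fun i _ => ?_).le
        rw [abs_mul, famc_abs, famc_abs, mul_one]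
      rw [Finset.sum_const, card_univ, nsmul_eq_mul, mul_one] at h1
      have h2 : 0 ≤ (Fintype.card (Fam n N l W) : ℝ) * Real.exp (-(N / 2 ^ l : ℝ)) := by positivity
      linarith
    · rw [zero_add]
      have h0 : ¬ ∀ a, Even (Nat.card {i // τ i = a}) := fun h1 => h ((mem_evT τ).2 h1)
      push Not at h0
      obtain ⟨a, ha⟩ := h0
      rw [Nat.not_even_iff_odd] at ha
      set x : Fin (2 * p) × Bool → Fin n → Bool := fun j => glue U (τ j.1) (if j.2 then b' else b)
        with hx
      have hd1 : ∀ j : Fin (2 * p) × Bool, (j.2 = true ∨ τ j.1 ≠ a) →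
          d ≤ (univ.filter (fun v => x j v ≠ glue U a b v)).card := by
        rintro ⟨i, t⟩ hj
        cases t with
        | true =>
          refine hb.trans (card_le_card ?_)
          intro v hv
          rw [mem_filter, mem_sdiff] at hv
          rw [mem_filter]
          refine ⟨mem_univ _, ?_⟩
          simp only [hx, glue, if_neg hv.1.2, if_true]
          exact fun h => hv.2 h.symm
        | false =>
          have hne : τ i ≠ a := by
            rcases hj with h | h
            · exact absurd h Bool.false_ne_true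
            · exact h
          refine (hK _ (τ i).2 _ a.2 fun h => hne (Subtype.ext h)).trans (card_le_card ?_)
          intro v hv
          rw [mem_filter] at hv
          rw [mem_filter]
          refine ⟨mem_univ _, ?_⟩
          simp only [hx, glue, if_pos hv.1]
          exact hv.2
      have hxa : ∀ j : Fin (2 * p) × Bool, x j = glue U a b ↔ j.2 = false ∧ τ j.1 = a := by
        intro j
        constructor
        · intro h
          by_contra hc
          have h1 := hd1 j (by
            by_cases ht : j.2 = true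
            · exact Or.inl ht
            · rw [Bool.not_eq_true] at ht
              exact Or.inr fun h2 => hc ⟨ht, h2⟩)
          rw [h] at h1
          simp only [ne_eq, not_true_eq_false, filter_false, card_empty] at h1
          omega
        · rintro ⟨h1, h2⟩
          simp only [hx, h1, h2]
          rfl
      have hodd : Odd (Nat.card {j // x j = glue U a b}) := by
        have e : Nat.card {j // x j = glue U a b} = Nat.card {i // τ i = a} := by
          refine Nat.card_congr ⟨fun j => ⟨j.1.1, ((hxa j.1).1 j.2).2⟩,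
            fun i => ⟨(i.1, false), (hxa (i.1, false)).2 ⟨rfl, i.2⟩⟩, fun j => ?_, fun i => rfl⟩
          have h1 := ((hxa j.1).1 j.2).1
          exact Subtype.ext (Prod.ext rfl h1.symm)
        rw [e]
        exact ha
      have hcard : (Fintype.card (Fin (2 * p) × Bool) : ℝ) = 4 * p := by
        rw [Fintype.card_prod, Fintype.card_fin, Fintype.card_bool]
        push_cast
        ring
      have h3 := (hPos n N l W d (Fin (2 * p) × Bool) x (glue U a b) hn hWd (by
        rw [hcard]
        linarith) hodd (fun j hj => hd1 j (by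
          by_contra hc
          push Not at hc
          refine hj ((hxa j).2 ⟨?_, hc.2⟩)
          simpa using hc.1))).2
      refine le_trans (le_of_eq ?_) h3
      refine Finset.sum_congr rfl fun ω _ => ?_
      rw [Fintype.prod_prod_type]
      refine Finset.prod_congr rfl fun i _ => ?_
      rw [Fintype.prod_bool]
      simp only [hx, if_true]
      exact mul_comm _ _
  refine (Finset.sum_le_sum fun τ _ => hτ τ).trans ?_
  rw [Finset.sum_add_distrib, Finset.sum_ite_mem, univ_inter, Finset.sum_const, Finset.sum_const, card_univ]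
  have hK1 : Fintype.card (Fin (2 * p) → K) = K.card ^ (2 * p) := by
    rw [Fintype.card_fun, Fintype.card_fin, Fintype.card_coe]
  have hE : ((evT (Fin (2 * p)) K).card : ℝ) ≤ (2 * p * K.card : ℝ) ^ p := by
    have := card_evT p (Fin (2 * p)) K (Fintype.card_fin _)
    rw [Fintype.card_coe] at this
    exact_mod_cast this
  rw [hK1, nsmul_eq_mul, nsmul_eq_mul]
  push_cast
  have hF : (0 : ℝ) ≤ Fintype.card (Fam n N l W) := by positivity
  nlinarith [mul_le_mul_of_nonneg_right hE hF]

end SRBP
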