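import Pool.Agent.Lib.MP_9dcf40_lc.DV.Spec

/-!
# Small circuits (MP_9dcf40_lc), T1: the positions
-/

namespace SRBP

open Finset

namespace PosT

/-- The sign of an element of `ZMod 2`. -/
noncomputable def sg (z : ZMod 2) : ℝ := if z = 1 then -1 else 1

theorem sg_zero : sg 0 = 1 := by
  unfold sg
  rw [if_neg (by decide)]

theorem sg_one : sg 1 = -1 := by
  unfold sg
  rw [if_pos rfl]

theorem zo (a : ZMod 2) : a = 0 ∨ a = 1 := by
  revert a
  decide

theorem sg_add (a b : ZMod 2) : sg (a + b) = sg a * sg b := by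
  rcases zo a with h | h <;> rcases zo b with h' | h' <;> rw [h, h']
  · rw [add_zero, sg_zero, mul_one]
  · rw [zero_add, sg_zero, one_mul]
  · rw [add_zero, sg_zero, mul_one]
  · rw [show (1 : ZMod 2) + 1 = 0 from by decide, sg_zero, sg_one]
    norm_num

theorem sg_sum {α : Type} (s : Finset α) (f : α → ZMod 2) : sg (∑ i ∈ s, f i) = ∏ i ∈ s, sg (f i) := by
  classical
  induction s using Finset.induction_on with
  | empty => rw [sum_empty, prod_empty, sg_zero]
  | insert a s ha ih => rw [sum_insert ha, prod_insert ha, sg_add, ih]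

/-- A row. -/
abbrev Row (n W : ℕ) : Type := Fin W → Fin n × Bool

theorem card_row (n W : ℕ) : (Fintype.card (Row n W) : ℝ) = (2 * n : ℝ) ^ W := by
  rw [Fintype.card_fun, Fintype.card_prod, Fintype.card_fin, Fintype.card_fin, Fintype.card_bool]
  push_cast
  ring

/-- The sum of the signs of a random row at two points. -/
theorem sum_row {n W : ℕ} (y y' : Fin n → Bool) :
    ∑ r : Row n W, sg (rowv r y + rowv r y') =
      (2 * n - 2 * ((univ.filter (fun v => y v ≠ y' v)).card : ℝ)) ^ W := by
  classical
  have h1 : ∀ r : Row n W, sg (rowv r y + rowv r y') =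
      ∏ u, sg ((if (r u).2 = true ∧ y (r u).1 = true then 1 else 0) +
        (if (r u).2 = true ∧ y' (r u).1 = true then 1 else 0)) := by
    intro r
    unfold rowv
    rw [← sum_add_distrib, sg_sum]
  rw [sum_congr rfl (fun r _ => h1 r)]
  have h2 := Fintype.sum_pow (fun p : Fin n × Bool => sg ((if p.2 = true ∧ y p.1 = true then 1 else 0) +
    (if p.2 = true ∧ y' p.1 = true then 1 else 0))) W
  rw [← h2]
  congr 1
  rw [Fintype.sum_prod_type]
  have h3 : ∀ v : Fin n, ∑ b : Bool, sg ((if b = true ∧ y v = true then 1 else 0) +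
      (if b = true ∧ y' v = true then 1 else 0)) = 2 - 2 * (if y v ≠ y' v then (1 : ℝ) else 0) := by
    intro v
    rw [Fintype.sum_bool]
    have e0 : sg ((if (false = true) ∧ y v = true then 1 else 0) +
      (if (false = true) ∧ y' v = true then 1 else 0)) = 1 := by
      rw [if_neg (fun h => absurd h.1 (by decide)), if_neg (fun h => absurd h.1 (by decide)), add_zero,
        sg_zero]
    rw [e0]
    cases hy : y v <;> cases hy' : y' v
    · rw [if_neg (fun h => absurd h.2 (by decide)), add_zero, sg_zero, if_neg (fun h => h rfl)]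
      norm_num
    · rw [if_neg (fun h => absurd h.2 (by decide)), if_pos ⟨rfl, rfl⟩, zero_add, sg_one,
        if_pos (by decide)]
      norm_num
    · rw [if_pos ⟨rfl, rfl⟩, if_neg (fun h => absurd h.2 (by decide)), add_zero, sg_one,
        if_pos (by decide)]
      norm_num
    · rw [if_pos ⟨rfl, rfl⟩, show (1 : ZMod 2) + 1 = 0 from by decide, sg_zero,
        if_neg (fun h => h rfl)]
      norm_num
  rw [sum_congr rfl (fun v _ => h3 v), sum_sub_distrib, ← mul_sum, ← sum_filter, sum_const, sum_const,
    card_univ, Fintype.card_fin, nsmul_eq_mul, nsmul_eq_mul, mul_one]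
  ring

/-- Two points at distance `≥ d`: at most `3/4` of the rows have the same value. -/
theorem agree {n W d : ℕ} (hn : 1 ≤ n) (hW : n ≤ W * d) (y y' : Fin n → Bool)
    (hd : d ≤ (univ.filter (fun v => y v ≠ y' v)).card) :
    ((univ.filter (fun r : Row n W => rowv r y = rowv r y')).card : ℝ) ≤
      3 / 4 * Fintype.card (Row n W) := by
  classical
  obtain ⟨D, hD⟩ : ∃ D, D = (univ.filter (fun v => y v ≠ y' v)).card := ⟨_, rfl⟩
  have hDn : D ≤ n := by
    rw [hD]
    exact (card_filter_le _ _).trans (by rw [card_univ, Fintype.card_fin])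
  have hn0 : (0 : ℝ) < n := by exact_mod_cast hn
  have hDn' : (D : ℝ) ≤ n := by exact_mod_cast hDn
  have h1 : ∑ r : Row n W, sg (rowv r y + rowv r y') ≤ (2 * n : ℝ) ^ W * (1 / 2) := by
    rw [sum_row, ← hD]
    have h2 : (2 * n - 2 * (D : ℝ)) ^ W = (2 * n : ℝ) ^ W * (1 - D / n) ^ W := by
      rw [← mul_pow]
      congr 1
      field_simp
    rw [h2]
    refine mul_le_mul_of_nonneg_left ?_ (by positivity)
    have h3 : (1 - (D : ℝ) / n) ≤ Real.exp (-(D / n)) := by
      have := Real.add_one_le_exp (-((D : ℝ) / n))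
      linarith
    have h4 : (0 : ℝ) ≤ 1 - D / n := by
      rw [sub_nonneg, div_le_one hn0]
      exact hDn'
    calc (1 - (D : ℝ) / n) ^ W ≤ (Real.exp (-(D / n))) ^ W := pow_le_pow_left₀ h4 h3 W
      _ = Real.exp (-(W * D / n)) := by
          rw [← Real.exp_nat_mul]
          congr 1
          ring
      _ ≤ Real.exp (-1) := by
          rw [Real.exp_le_exp, neg_le_neg_iff, le_div_iff₀ hn0, one_mul]
          have h5 : n ≤ W * D := hW.trans (Nat.mul_le_mul_left _ (by rw [hD]; exact hd))
          exact_mod_cast h5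
      _ ≤ 1 / 2 := by
          rw [Real.exp_neg, one_div]
          refine inv_anti₀ (by norm_num) ?_
          have := Real.add_one_le_exp (1 : ℝ)
          linarith
  have h2 : ∑ r : Row n W, sg (rowv r y + rowv r y') =
      2 * ((univ.filter (fun r : Row n W => rowv r y = rowv r y')).card : ℝ) -
        Fintype.card (Row n W) := by
    have h3 : ∀ r : Row n W, sg (rowv r y + rowv r y') =
        2 * (if rowv r y = rowv r y' then (1 : ℝ) else 0) - 1 := by
      intro r
      rcases zo (rowv r y) with h | h <;> rcases zo (rowv r y') with h' | h' <;> rw [h, h']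
      · rw [add_zero, sg_zero, if_pos rfl]
        norm_num
      · rw [zero_add, sg_one, if_neg (by decide)]
        norm_num
      · rw [add_zero, sg_one, if_neg (by decide)]
        norm_num
      · rw [show (1 : ZMod 2) + 1 = 0 from by decide, sg_zero, if_pos rfl]
        norm_num
    rw [sum_congr rfl (fun r _ => h3 r), sum_sub_distrib, ← mul_sum, ← sum_filter, sum_const, sum_const,
      card_univ, nsmul_eq_mul, nsmul_eq_mul, mul_one, mul_one]
  rw [h2] at h1
  rw [← card_row] at h1
  linarith

/-- The prescribed values are those of `y`. -/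
theorem card_hit {n l W : ℕ} (y : Fin n → Bool) [DecidablePred fun q : Fin l → Row n W × Bool => hit q y] :
    (univ.filter (fun q : Fin l → Row n W × Bool => hit q y)).card = Fintype.card (Row n W) ^ l := by
  classical
  have h1 : univ.filter (fun q : Fin l → Row n W × Bool => hit q y) =
      Fintype.piFinset (fun _ : Fin l => univ.filter (fun p : Row n W × Bool =>
        rowv p.1 y = if p.2 = true then 1 else 0)) := by
    ext q
    rw [mem_filter, Fintype.mem_piFinset]
    constructor
    · rintro ⟨-, h⟩ j
      exact mem_filter.2 ⟨mem_univ _, h j⟩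
    · intro h
      exact ⟨mem_univ _, fun j => (mem_filter.1 (h j)).2⟩
  have h2 : (univ.filter (fun p : Row n W × Bool => rowv p.1 y = if p.2 = true then 1 else 0)).card =
      Fintype.card (Row n W) := by
    rw [← card_univ]
    refine card_bij (fun p _ => p.1) (fun p _ => mem_univ _) ?_ ?_
    · intro p hp p' hp' he
      have e1 := (mem_filter.1 hp).2
      have e2 := (mem_filter.1 hp').2
      refine Prod.ext he ?_
      rw [he, e2] at e1
      cases h3 : p.2 <;> cases h4 : p'.2
      · rfl
      · rw [h3, h4] at e1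
        exact absurd e1 (by decide)
      · rw [h3, h4] at e1
        exact absurd e1 (by decide)
      · rfl
    · intro r _
      rcases zo (rowv r y) with h | h
      · exact ⟨(r, false), mem_filter.2 ⟨mem_univ _, by rw [h]; rfl⟩, rfl⟩
      · exact ⟨(r, true), mem_filter.2 ⟨mem_univ _, by rw [h]; rfl⟩, rfl⟩
  rw [h1, Fintype.card_piFinset, prod_congr rfl (fun _ _ => h2), prod_const, card_univ, Fintype.card_fin]

open scoped Classical in
/-- The product of the signs of one position. -/
noncomputable def F {n l W : ℕ} {J : Type} [Fintype J] (x : J → Fin n → Bool)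
    (q : Fin l → Row n W × Bool) : ℝ := ∏ j, (if hit q (x j) then (-1 : ℝ) else 1)

theorem prod_famc {n N l W : ℕ} {J : Type} [Fintype J] (x : J → Fin n → Bool) (ω : Fam n N l W) :
    ∏ j, famc ω (x j) = ∏ i, F x (ω i) := by
  classical
  have h1 : ∀ j, famc ω (x j) = ∏ i, (if hit (ω i) (x j) then (-1 : ℝ) else 1) := by
    intro j
    show sg (fam ω (x j)) = _
    unfold fam
    rw [sg_sum]
    refine prod_congr rfl (fun i _ => ?_)
    by_cases h : hit (ω i) (x j)
    · rw [if_pos h, if_pos h, sg_one]
    · rw [if_neg h, if_neg h, sg_zero]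
  rw [prod_congr rfl (fun j _ => h1 j), prod_comm]
  rfl

open scoped Classical in
/-- The number of points which are hit. -/
noncomputable def hits {n l W : ℕ} {J : Type} [Fintype J] (x : J → Fin n → Bool)
    (q : Fin l → Row n W × Bool) : ℕ := (univ.filter (fun j => hit q (x j))).card

theorem F_eq {n l W : ℕ} {J : Type} [Fintype J] (x : J → Fin n → Bool) (q : Fin l → Row n W × Bool) :
    F x q = (-1) ^ hits x q := by
  classical
  unfold F hits
  rw [prod_ite, prod_const_one, mul_one, prod_const]

open scoped Classical in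
theorem sum_F {n l W : ℕ} {J : Type} [Fintype J] (x : J → Fin n → Bool) :
    ∑ q : Fin l → Row n W × Bool, F x q = Fintype.card (Fin l → Row n W × Bool) -
      2 * ((univ.filter (fun q : Fin l → Row n W × Bool => Odd (hits x q))).card : ℝ) := by
  have h1 : ∀ q : Fin l → Row n W × Bool, F x q = 1 - 2 * (if Odd (hits x q) then (1 : ℝ) else 0) := by
    intro q
    rw [F_eq]
    by_cases h : Odd (hits x q)
    · rw [h.neg_one_pow, if_pos h]
      norm_num
    · rw [(Nat.not_odd_iff_even.1 h).neg_one_pow, if_neg h]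
      norm_num
  rw [sum_congr rfl (fun q _ => h1 q), sum_sub_distrib, ← mul_sum, ← sum_filter, sum_const, sum_const,
    card_univ, nsmul_eq_mul, nsmul_eq_mul, mul_one, mul_one]

theorem card_Q (n l W : ℕ) : (Fintype.card (Fin l → Row n W × Bool) : ℝ) =
    2 ^ l * (Fintype.card (Row n W) : ℝ) ^ l := by
  rw [Fintype.card_fun, Fintype.card_prod, Fintype.card_bool, Fintype.card_fin]
  push_cast
  rw [mul_pow]
  ring

open scoped Classical in
/-- At most half of the positions hit an odd number of points. -/
theorem odd_le {n l W : ℕ} {J : Type} [Fintype J] (x : J → Fin n → Bool)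
    (hJ : 2 * (Fintype.card J : ℝ) * (3 / 4) ^ l ≤ 1) :
    2 * ((univ.filter (fun q : Fin l → Row n W × Bool => Odd (hits x q))).card : ℝ) ≤
      Fintype.card (Fin l → Row n W × Bool) := by
  have h1 : (univ.filter (fun q : Fin l → Row n W × Bool => Odd (hits x q))) ⊆
      univ.biUnion (fun j => univ.filter (fun q : Fin l → Row n W × Bool => hit q (x j))) := by
    intro q hq
    have h2 := (mem_filter.1 hq).2.pos
    obtain ⟨j, hj⟩ := card_pos.1 h2
    exact mem_biUnion.2 ⟨j, mem_univ _, mem_filter.2 ⟨mem_univ _, (mem_filter.1 hj).2⟩⟩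
  have h2 : (univ.filter (fun q : Fin l → Row n W × Bool => Odd (hits x q))).card ≤
      Fintype.card J * Fintype.card (Row n W) ^ l := by
    refine (card_le_card h1).trans (card_biUnion_le.trans (le_of_eq ?_))
    rw [sum_congr rfl (fun j _ => card_hit (x j)), sum_const, card_univ, smul_eq_mul]
  have h3 : ((univ.filter (fun q : Fin l → Row n W × Bool => Odd (hits x q))).card : ℝ) ≤
      Fintype.card J * (Fintype.card (Row n W) : ℝ) ^ l := by exact_mod_cast h2
  rw [card_Q]
  have h4 : 2 * (Fintype.card J : ℝ) ≤ 2 ^ l := by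
    have h5 : (1 / 2 : ℝ) ^ l ≤ (3 / 4) ^ l := pow_le_pow_left₀ (by norm_num) (by norm_num) l
    have h6 : 2 * (Fintype.card J : ℝ) * (1 / 2) ^ l ≤ 1 :=
      (mul_le_mul_of_nonneg_left h5 (by positivity)).trans hJ
    rw [one_div, inv_pow, ← div_eq_mul_inv, div_le_one (by positivity)] at h6
    exact h6
  calc _ ≤ 2 * (Fintype.card J * (Fintype.card (Row n W) : ℝ) ^ l) := by linarith
    _ = (2 * Fintype.card J) * (Fintype.card (Row n W) : ℝ) ^ l := by ring
    _ ≤ _ := mul_le_mul_of_nonneg_right h4 (by positivity)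

open scoped Classical in
/-- At least `2^(-l-1)` of the positions hit an odd number of points. -/
theorem le_odd {n l W d : ℕ} {J : Type} [Fintype J] (x : J → Fin n → Bool) (P : Fin n → Bool)
    (hn : 1 ≤ n) (hW : n ≤ W * d) (hJ : 2 * (Fintype.card J : ℝ) * (3 / 4) ^ l ≤ 1)
    (hP : Odd (Nat.card {j // x j = P}))
    (hd : ∀ j, x j ≠ P → d ≤ (univ.filter (fun v => x j v ≠ P v)).card) :
    (Fintype.card (Row n W) : ℝ) ^ l ≤
      2 * ((univ.filter (fun q : Fin l → Row n W × Bool => Odd (hits x q))).card : ℝ) := by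
  -- the rows which do not separate
  obtain ⟨N, hN⟩ : ∃ N : Finset (Fin l → Row n W), N = univ.filter (fun r : Fin l → Row n W =>
      ∃ j, x j ≠ P ∧ ∀ i, rowv (r i) (x j) = rowv (r i) P) := ⟨_, rfl⟩
  have h1 : (N.card : ℝ) ≤ Fintype.card J * (3 / 4 * Fintype.card (Row n W)) ^ l := by
    have h2 : N ⊆ (univ.filter (fun j => x j ≠ P)).biUnion (fun j => Fintype.piFinset (fun _ : Fin l =>
        univ.filter (fun r : Row n W => rowv r (x j) = rowv r P))) := by
      intro r hr
      rw [hN] at hr
      obtain ⟨j, hj, hj2⟩ := (mem_filter.1 hr).2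
      refine mem_biUnion.2 ⟨j, mem_filter.2 ⟨mem_univ _, hj⟩, Fintype.mem_piFinset.2 (fun i => ?_)⟩
      exact mem_filter.2 ⟨mem_univ _, hj2 i⟩
    have h3 : (N.card : ℝ) ≤ ∑ j ∈ univ.filter (fun j => x j ≠ P),
        ((univ.filter (fun r : Row n W => rowv r (x j) = rowv r P)).card : ℝ) ^ l := by
      have h4 := (card_le_card h2).trans card_biUnion_le
      have h5 : ∀ j, (Fintype.piFinset (fun _ : Fin l =>
          univ.filter (fun r : Row n W => rowv r (x j) = rowv r P))).card =
          (univ.filter (fun r : Row n W => rowv r (x j) = rowv r P)).card ^ l := by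
        intro j
        rw [Fintype.card_piFinset, prod_const, card_univ, Fintype.card_fin]
      rw [sum_congr rfl (fun j _ => h5 j)] at h4
      exact_mod_cast h4
    refine h3.trans ?_
    calc _ ≤ ∑ j ∈ univ.filter (fun j => x j ≠ P), (3 / 4 * (Fintype.card (Row n W) : ℝ)) ^ l :=
          sum_le_sum (fun j hj => pow_le_pow_left₀ (Nat.cast_nonneg _)
            (agree hn hW (x j) P (hd j (mem_filter.1 hj).2)) l)
      _ = ((univ.filter (fun j => x j ≠ P)).card : ℝ) * (3 / 4 * (Fintype.card (Row n W) : ℝ)) ^ l := by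
          rw [sum_const, nsmul_eq_mul]
      _ ≤ _ := by
          refine mul_le_mul_of_nonneg_right ?_ (by positivity)
          have : (univ.filter (fun j => x j ≠ P)).card ≤ Fintype.card J :=
            (card_filter_le _ _).trans (by rw [card_univ])
          exact_mod_cast this
  have h2 : 2 * (N.card : ℝ) ≤ (Fintype.card (Row n W) : ℝ) ^ l := by
    calc 2 * (N.card : ℝ) ≤ 2 * (Fintype.card J * (3 / 4 * Fintype.card (Row n W)) ^ l) := by linarith
      _ = (2 * (Fintype.card J : ℝ) * (3 / 4) ^ l) * (Fintype.card (Row n W) : ℝ) ^ l := by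
          rw [mul_pow]
          ring
      _ ≤ 1 * (Fintype.card (Row n W) : ℝ) ^ l := mul_le_mul_of_nonneg_right hJ (by positivity)
      _ = _ := one_mul _
  -- the rows which separate
  have h3 : Nᶜ.card ≤ (univ.filter (fun q : Fin l → Row n W × Bool => Odd (hits x q))).card := by
    refine card_le_card_of_injOn (fun r i => (r i, decide (rowv (r i) P = 1))) ?_ ?_
    · intro r hr
      have hr' : ¬ ∃ j, x j ≠ P ∧ ∀ i, rowv (r i) (x j) = rowv (r i) P := by
        intro hc
        have := mem_compl.1 (mem_coe.1 hr)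
        rw [hN] at this
        exact this (mem_filter.2 ⟨mem_univ _, hc⟩)
      refine mem_coe.2 (mem_filter.2 ⟨mem_univ _, ?_⟩)
      have hkey : ∀ j, hit (fun i => (r i, decide (rowv (r i) P = 1))) (x j) ↔ x j = P := by
        intro j
        have hv : ∀ i, (if decide (rowv (r i) P = 1) = true then (1 : ZMod 2) else 0) = rowv (r i) P := by
          intro i
          rcases zo (rowv (r i) P) with h | h <;> rw [h] <;> decide
        constructor
        · intro hh
          by_contra hne
          exact hr' ⟨j, hne, fun i => (hh i).trans (hv i)⟩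
        · intro he i
          rw [he]
          exact (hv i).symm
      have hc : hits x (fun i => (r i, decide (rowv (r i) P = 1))) = Nat.card {j // x j = P} := by
        rw [Nat.card_eq_fintype_card, Fintype.card_subtype]
        unfold hits
        congr 1
        ext j
        rw [mem_filter, mem_filter, hkey j]
      rw [hc]
      exact hP
    · intro r _ r' _ he
      funext i
      exact congrArg Prod.fst (congrFun he i)
  have h4 : (N.card : ℝ) + (Nᶜ.card : ℝ) = (Fintype.card (Row n W) : ℝ) ^ l := by
    have h5 := card_add_card_compl N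
    rw [Fintype.card_fun, Fintype.card_fin] at h5
    exact_mod_cast h5
  have h3' : (Nᶜ.card : ℝ) ≤
      ((univ.filter (fun q : Fin l → Row n W × Bool => Odd (hits x q))).card : ℝ) := by exact_mod_cast h3
  linarith

end PosT

open PosT in
theorem tPos : S_Pos := by
  classical
  intro n N l W d J _ x P hn hW hJ hP hd
  have h1 : ∑ ω : Fam n N l W, ∏ j, famc ω (x j) = (∑ q : Fin l → Row n W × Bool, F x q) ^ N := by
    rw [sum_congr rfl (fun ω _ => prod_famc x ω)]
    exact (Fintype.sum_pow (F x) N).symm
  have h2 := odd_le (W := W) x hJ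
  have h3 := le_odd x P hn hW hJ hP hd
  have h4 := sum_F (l := l) (W := W) x
  have h5 : 0 ≤ ∑ q : Fin l → Row n W × Bool, F x q := by
    rw [h4]
    linarith
  have hQ := card_Q n l W
  have h6 : ∑ q : Fin l → Row n W × Bool, F x q ≤
      Fintype.card (Fin l → Row n W × Bool) * Real.exp (-(1 / 2 ^ l)) := by
    have h7 : ∑ q : Fin l → Row n W × Bool, F x q ≤
        Fintype.card (Fin l → Row n W × Bool) * (1 - 1 / 2 ^ l) := by
      rw [h4, hQ]
      have h8 : (2 ^ l * (Fintype.card (Row n W) : ℝ) ^ l) * (1 - 1 / 2 ^ l) =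
          2 ^ l * (Fintype.card (Row n W) : ℝ) ^ l - (Fintype.card (Row n W) : ℝ) ^ l := by
        field_simp
      rw [h8]
      linarith
    refine h7.trans (mul_le_mul_of_nonneg_left ?_ (Nat.cast_nonneg _))
    have := Real.add_one_le_exp (-(1 / 2 ^ l : ℝ))
    linarith
  rw [h1]
  refine ⟨pow_nonneg h5 N, (pow_le_pow_left₀ h5 h6 N).trans (le_of_eq ?_)⟩
  rw [mul_pow, ← Real.exp_nat_mul, Fintype.card_fun (α := Fin N), Fintype.card_fin]
  push_cast
  congr 2
  ring

end SRBP
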