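import Pool.Agent.Lib.MP_9dcf40_lc.DTR.TopX
import Pool.Agent.Lib.MP_9dcf40_lc.DV.Spec

/-!
# Small circuits (MP_9dcf40_lc): the main statement for every function with small discrepancy
-/

namespace SRBP

open Finset

namespace TopF

theorem pw (ε : ℝ) (hε : 0 < ε) (hε1 : ε ≤ 1) (A : ℕ) (hA : 1000 / ε ≤ A) (k n : ℕ) (hk : 2 ≤ k)
    (hn : (k : ℝ) ^ (A * k) ≤ n) :
    (n : ℝ) ^ (1 - ε / 8) ≤ n / (k : ℝ) ^ (120 * k) / 16 := by
  have hK : (2 : ℝ) ≤ k := by exact_mod_cast hk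
  have hK1 : (1 : ℝ) ≤ k := by linarith
  have hK0 : (0 : ℝ) < k := by linarith
  have hn0 : (0 : ℝ) < n := lt_of_lt_of_le (by positivity) hn
  have hA' : 1000 ≤ ε * A := by
    rw [div_le_iff₀ hε] at hA
    linarith
  have h1 : 16 * (k : ℝ) ^ (120 * k) ≤ (k : ℝ) ^ ((125 * k : ℕ) : ℝ) := by
    rw [Real.rpow_natCast]
    calc 16 * (k : ℝ) ^ (120 * k) = 2 ^ 4 * (k : ℝ) ^ (120 * k) := by norm_num
      _ ≤ (k : ℝ) ^ 4 * (k : ℝ) ^ (120 * k) := by gcongr
      _ = (k : ℝ) ^ (4 + 120 * k) := (pow_add _ _ _).symm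
      _ ≤ _ := pow_le_pow_right₀ hK1 (by omega)
  have h2 : (k : ℝ) ^ ((125 * k : ℕ) : ℝ) ≤ (n : ℝ) ^ (ε / 8) := by
    calc (k : ℝ) ^ ((125 * k : ℕ) : ℝ) ≤ (k : ℝ) ^ (((A * k : ℕ) : ℝ) * (ε / 8)) := by
          refine Real.rpow_le_rpow_of_exponent_le hK1 ?_
          push_cast
          have : (125 : ℝ) * k ≤ (ε * A / 8) * k :=
            mul_le_mul_of_nonneg_right (by linarith) hK0.le
          linarith
      _ = ((k : ℝ) ^ (A * k)) ^ (ε / 8) := by
          rw [Real.rpow_mul hK0.le, Real.rpow_natCast]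
      _ ≤ (n : ℝ) ^ (ε / 8) := Real.rpow_le_rpow (by positivity) hn (by positivity)
  have h3 := h1.trans h2
  rw [div_div, le_div_iff₀ (by positivity), mul_comm ((k : ℝ) ^ (120 * k))]
  calc (n : ℝ) ^ (1 - ε / 8) * (16 * (k : ℝ) ^ (120 * k)) ≤
        (n : ℝ) ^ (1 - ε / 8) * (n : ℝ) ^ (ε / 8) :=
        mul_le_mul_of_nonneg_left h3 (by positivity)
    _ = n := by
        rw [← Real.rpow_add hn0]
        norm_num

end TopF

open TopF TopX in
/-- TOPF: the main statement for every function with small discrepancy. -/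
theorem topF (hP : S_ProgU) : S_TopF := by
  classical
  intro ε hε hε1
  refine ⟨⌈1000 / ε⌉₊, 1, ?_, ?_⟩
  · exact Nat.one_le_ceil_iff.2 (by positivity)
  intro n _ f hf
  obtain ⟨A, hA⟩ : ∃ A : ℕ, A = ⌈1000 / ε⌉₊ := ⟨_, rfl⟩
  rw [← hA]
  have hA1 : 1000 / ε ≤ A := by
    rw [hA]
    exact Nat.le_ceil _
  have hA2 : 1000 ≤ A := by
    have h1 : (1000 : ℝ) ≤ 1000 / ε := by
      rw [le_div_iff₀ hε]
      linarith
    exact_mod_cast h1.trans hA1
  intro k a hk ha hkn P hU hV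
  have hK : (2 : ℝ) ≤ k := by exact_mod_cast hk
  have hK1 : (1 : ℝ) ≤ k := by linarith
  have haR : (1 : ℝ) ≤ a := by exact_mod_cast ha
  have hpow : (k : ℝ) ^ (1000 * k) ≤ (k : ℝ) ^ (A * k) :=
    pow_le_pow_right₀ hK1 (Nat.mul_le_mul_right _ hA2)
  have hkn' : a * (k : ℝ) ^ (1000 * k) ≤ n :=
    le_trans (mul_le_mul_of_nonneg_left hpow (by positivity)) hkn
  have hkn1 : (k : ℝ) ^ (A * k) ≤ n :=
    le_trans (le_mul_of_one_le_left (by positivity) haR) hkn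
  have hV' : (Fintype.card P.V : ℝ) < Real.exp (n / (a * (k : ℝ) ^ (1000 * k))) := by
    refine lt_of_lt_of_le hV (Real.exp_le_exp.2 ?_)
    refine div_le_div_of_nonneg_left (Nat.cast_nonneg _) (by positivity) ?_
    exact mul_le_mul_of_nonneg_left hpow (by positivity)
  obtain ⟨-, h2, h3⟩ := num k a n hk ha hkn'
  have h1 := pw ε hε hε1 A hA1 k n hk hkn1
  have hr : 1 ≤ a * k ^ (240 * k + 100) := Nat.mul_pos ha (Nat.pos_of_ne_zero (by positivity))
  obtain ⟨b, sg, dm, hl, hs, hcl⟩ := hP n (a * k ^ (240 * k + 100))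
    (k * n / (a * k ^ (240 * k + 100)) + 1) (k * n) P hU hr (Nat.lt_mul_div_succ _ hr).le
  have hι : (Fintype.card (Fin (a * k ^ (240 * k + 100) + 1) → P.V) : ℝ) ≤
      Real.exp (n / (k : ℝ) ^ (120 * k) / 100000) := by
    rw [Fintype.card_fun, Fintype.card_fin]
    push_cast
    calc (Fintype.card P.V : ℝ) ^ (a * k ^ (240 * k + 100) + 1) ≤
          Real.exp (n / (a * (k : ℝ) ^ (1000 * k))) ^ (a * k ^ (240 * k + 100) + 1) :=
          pow_le_pow_left₀ (Nat.cast_nonneg _) hV'.le _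
      _ = Real.exp (((a * k ^ (240 * k + 100) + 1 : ℕ) : ℝ) *
          (n / (a * (k : ℝ) ^ (1000 * k)))) := (Real.exp_nat_mul _ _).symm
      _ ≤ _ := Real.exp_le_exp.2 h2
  have key := coreX k a n hk ha hkn' (ShU P (k * n)) b sg dm hl hs (fun u => by convert hcl u) hι
    (chi f) (fun y => by
      unfold chi
      split_ifs <;> norm_num) (fun s hs => hf s (h1.trans hs))
  refine key.trans (add_le_add le_rfl ?_)
  refine mul_le_mul_of_nonneg_left (Real.exp_le_exp.2 (neg_le_neg ?_)) (by positivity)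
  refine le_trans ?_ h3
  exact div_le_div_of_nonneg_left (Nat.cast_nonneg _) (by positivity) hpow

end SRBP
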