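import Pool.Agent.Lib.MP_9dcf40_lc.DV.Fin
import Pool.Agent.Lib.MP_9dcf40_lc.DV.Pos
import Pool.Agent.Lib.MP_9dcf40_lc.DV.Mom
import Pool.Agent.Lib.MP_9dcf40_lc.DV.Code
import Pool.Agent.Lib.MP_9dcf40_lc.DV.Cor
import Pool.Agent.Lib.MP_9dcf40_lc.DV.Good
import Pool.Agent.Lib.MP_9dcf40_lc.DV.TopF
import Pool.Agent.Lib.MP_9dcf40_lc.DV.Ckt
import Pool.Agent.Lib.MP_9dcf40_lc.DV.EndG
import Pool.Agent.Lib.MP_9dcf40_lc.DU.Prog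
import Pool.Agent.Lib.MP_9dcf40_lc.DU.Res
import Pool.Agent.Lib.MP_9dcf40_lc.DU.Len
import Pool.Agent.Lib.MP_9dcf40_lc.DU.Det

/-!
# The final statement (MP_9dcf40_lc): all modules together
-/

namespace SRBP

theorem finAll (ε : ℝ) (hε : 0 < ε) :
    ∃ A N : ℕ, 1 ≤ A ∧ ∀ n ≥ N, ∀ m : ℕ, (n : ℝ) ^ (1 + ε) ≤ m → ∃ c : GBits n m → Bool,
      PartG1 A n (GVal n m c) ∧ PartG2 A n (GBits n m) c (OddG n m) ∧
      PartG3 A n (GBits n m) (OddG n m) :=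
  finG (famGood (tMom tPos) tCode tCorG) (topF tProgU) tCkt (tEndG tResU tLenU) ε hε

end SRBP
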