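import Pool.Agent.Lib.MP_9dcf40_lc.DV.Spec

/-!
# The final statement (MP_9dcf40_lc) for small circuits
-/

namespace SRBP

open Finset

theorem goodF_neg {n : ℕ} {s₀ : ℝ} {g h : (Fin n → Bool) → ℝ} (hgh : ∀ y, h y = -g y)
    (hg : GoodF n s₀ g) : GoodF n s₀ h := by
  intro s hs U A B h1 h2 h3 h4 h5
  have h6 := hg s hs U A B h1 h2 h3 h4 h5
  have h7 : ∑ a ∈ A, ∑ b ∈ B, h (glue U a b) = -∑ a ∈ A, ∑ b ∈ B, g (glue U a b) := by
    rw [← sum_neg_distrib]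
    refine sum_congr rfl (fun a _ => ?_)
    rw [← sum_neg_distrib]
    exact sum_congr rfl (fun b _ => hgh _)
  rw [h7, abs_neg]
  exact h6

theorem finG (h1 : S_FamGood) (h2 : S_TopF) (h3 : S_Ckt) (h4 : S_EndG) (ε : ℝ) (hε : 0 < ε) :
    ∃ A N : ℕ, 1 ≤ A ∧ ∀ n ≥ N, ∀ m : ℕ, (n : ℝ) ^ (1 + ε) ≤ m → ∃ c : GBits n m → Bool,
      PartG1 A n (GVal n m c) ∧ PartG2 A n (GBits n m) c (OddG n m) ∧
      PartG3 A n (GBits n m) (OddG n m) := by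
  classical
  obtain ⟨ε', hε'⟩ : ∃ ε', ε' = min ε 1 := ⟨_, rfl⟩
  have e0 : 0 < ε' := by
    rw [hε']
    exact lt_min hε one_pos
  have e1 : ε' ≤ 1 := by
    rw [hε']
    exact min_le_right _ _
  have e2 : ε' ≤ ε := by
    rw [hε']
    exact min_le_left _ _
  obtain ⟨n₁, h1⟩ := h1 ε' e0 e1
  obtain ⟨A₀, n₂, hA₀, h2⟩ := h2 ε' e0 e1
  obtain ⟨A, n₃, hA, h4⟩ := h4 A₀ hA₀
  refine ⟨A, max (max n₁ n₂) (max n₃ 1), le_trans hA₀ hA, fun n hn m hm => ?_⟩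
  have k1 : n₁ ≤ n := le_trans (le_max_left _ _) (le_trans (le_max_left _ _) hn)
  have k2 : n₂ ≤ n := le_trans (le_max_right _ _) (le_trans (le_max_left _ _) hn)
  have k3 : n₃ ≤ n := le_trans (le_max_left _ _) (le_trans (le_max_right _ _) hn)
  have k4 : 1 ≤ n := le_trans (le_max_right _ _) (le_trans (le_max_right _ _) hn)
  have k5 : (1 : ℝ) ≤ n := by exact_mod_cast k4
  obtain ⟨N, l, W, ω, hsz, hgood⟩ := h1 n k1
  have hsz' : N * (l * (6 * W + 6) + 6) + 6 ≤ m := by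
    have h5 : (n : ℝ) ^ (1 + ε') ≤ (n : ℝ) ^ (1 + ε) := Real.rpow_le_rpow_of_exponent_le k5 (by linarith)
    exact_mod_cast hsz.trans (h5.trans hm)
  obtain ⟨c, hc⟩ := h3 n N l W m ω k4 hsz'
  have h6 : GVal n m c = fun y => fam ω y = 1 := funext (fun y => propext (hc y))
  have h7 : TopX A₀ n (GVal n m c) := by
    rw [h6]
    refine h2 n k2 _ (goodF_neg (fun y => ?_) hgood)
    unfold chi famc
    split_ifs <;> norm_num
  have hm1 : 1 ≤ m := by omega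
  haveI : Nonempty (GBits n m) := ⟨(⟨0, hm1⟩, true, ⟨0, Nat.size_pos.2 (by omega)⟩)⟩
  obtain ⟨p1, p2, p3⟩ := h4 n k3 (GBits n m) (GVal n m) c h7
  exact ⟨c, p1, p2, p3⟩

end SRBP
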