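import Mathlib

/-!
# Circuits of NAND gates of fan-in two, the wires given by binary numbers (MP_9dcf40_lc): the definitions used
in the statement
-/

namespace SRBP

/-- The bits which describe a circuit with `n` inputs and `m` NAND gates of fan-in two. The wires
`0, .., n - 1` are the inputs, the wire `n + g` is the gate `g`. The bit `(g, p, i)` is the digit `i` of the
binary number of the wire at the port `p` of the gate `g`. -/
abbrev GBits (n m : ℕ) : Type := Fin m × Bool × Fin (Nat.size (n + m))

/-- The number of the wire at the port `p` of the gate `g`. -/
def port {n m : ℕ} (c : GBits n m → Bool) (g : Fin m) (p : Bool) : ℕ :=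
  ∑ i : Fin (Nat.size (n + m)), if c (g, p, i) then 2 ^ (i : ℕ) else 0

/-- `w` lists the values of the wires of the circuit `c` on the input `y`: the wire `i < n` has the value
`y i`, and the gate `g` is `0` iff both its ports are `1`, where a port counts as `1` if its wire is not one
of the wires `0, .., n + g - 1`. -/
def GValues (n m : ℕ) (c : GBits n m → Bool) (y : Fin n → Bool) (w : ℕ → Bool) : Prop :=
  (∀ i : Fin n, w i = y i) ∧
  ∀ g : Fin m, (w (n + g) = false ↔ ∀ p : Bool, port c g p < n + g → w (port c g p) = true)

/-- Circuit value: on the input `y` the last gate of the circuit `c` is `1`. -/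
def GVal (n m : ℕ) (c : GBits n m → Bool) (y : Fin n → Bool) : Prop :=
  ∃ w, GValues n m c y w ∧ w (n + m - 1) = true

/-- The input is a circuit `c` and `t` inputs `y^1, .., y^t` of it; the function is true iff `c` has the value
`1` on an odd number of them. -/
def OddG (n m t : ℕ) (z : GBits n m ⊕ Fin t × Fin n → Bool) : Prop :=
  Odd (Nat.card {j : Fin t // GVal n m (fun a => z (Sum.inl a)) (fun i => z (Sum.inr (j, i)))})

end SRBP
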